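import Mathlib

/-!
# Integral affine actions on simply connected integral affine manifolds

A simply connected integral affine manifold `X` of dimension `q` is given by its developing map
`dev : X → E`, a local homeomorphism into a real vector space `E` of dimension `q` with a lattice;
the integral affine structure is the pull back of the one of `E`. A group `W` acts on `X` by
integral affine transformations if the developing map is equivariant for a homomorphism of `W` to
the affine transformations of `E` whose linear parts preserve the lattice.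
-/

open Set Topology Module

namespace Pool.Agent.H817.WG

/-- A faithful action of a group `W` on a simply connected integral affine manifold `X` by integral
affine transformations: `dev` is the developing map, `hol` the holonomy representation, `lattice`
the lattice of integral vectors. -/
structure IntegralAffineAction (W X E : Type*) [Group W] [TopologicalSpace X] [MulAction W X]
    [NormedAddCommGroup E] [NormedSpace ℝ E] where
  /-- the developing map -/
  dev : X → E
  isLocalHomeomorph_dev : IsLocalHomeomorph dev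
  /-- the holonomy representation -/
  hol : W →* (E ≃ᵃ[ℝ] E)
  dev_smul : ∀ w x, dev (w • x) = hol w (dev x)
  continuous_smul : ∀ w : W, Continuous fun x : X => w • x
  faithful : ∀ w : W, (∀ x : X, w • x = x) → w = 1
  /-- the integral vectors -/
  lattice : Submodule ℤ E
  discreteTopology_lattice : DiscreteTopology lattice
  span_lattice : Submodule.span ℝ (lattice : Set E) = ⊤
  linear_mem : ∀ w, ∀ v ∈ lattice, (hol w).linear v ∈ lattice

variable {W X E : Type*} [Group W] [TopologicalSpace X] [MulAction W X]
  [NormedAddCommGroup E] [NormedSpace ℝ E]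

namespace IntegralAffineAction

/-- The differential of the action of `w`, in the affine coordinates of `X`. -/
def lin (A : IntegralAffineAction W X E) (w : W) : E →ₗ[ℝ] E := ((A.hol w).linear : E →ₗ[ℝ] E)

/-- A geometric reflection: an involution of `X` which has a fixed point and whose differential
there fixes a hyperplane. -/
def IsReflection (A : IntegralAffineAction W X E) (r : W) : Prop :=
  r * r = 1 ∧ (∃ x : X, r • x = x) ∧ finrank ℝ (LinearMap.range (A.lin r - LinearMap.id)) = 1

variable (A : IntegralAffineAction W X E)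

theorem lin_apply (w : W) (v : E) : A.lin w v = (A.hol w).linear v := rfl

theorem lin_mul (w w' : W) (v : E) : A.lin (w * w') v = A.lin w (A.lin w' v) := by
  rw [lin_apply, lin_apply, lin_apply, map_mul]
  rfl

theorem lin_one (v : E) : A.lin 1 v = v := by
  rw [lin_apply, map_one]
  rfl

theorem hol_sub (w : W) (p q : E) : A.hol w p - A.hol w q = A.lin w (p - q) := by
  rw [lin_apply]
  have := (A.hol w).toAffineMap.linearMap_vsub p q
  simpa using! this.symm

theorem hol_mul (w w' : W) (p : E) : A.hol (w * w') p = A.hol w (A.hol w' p) := by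
  rw [map_mul]
  rfl

theorem hol_one (p : E) : A.hol 1 p = p := by
  rw [map_one]
  rfl

/-- Local uniqueness: near a fixed point of `w`, a point whose image is fixed is fixed. -/
theorem exists_nbhd (w : W) (x : X) (hx : w • x = x) :
    ∃ U, IsOpen U ∧ x ∈ U ∧ ∀ y ∈ U, A.hol w (A.dev y) = A.dev y → w • y = y := by
  obtain ⟨e, hxe, he⟩ := A.isLocalHomeomorph_dev x
  refine ⟨e.source ∩ (fun y => w • y) ⁻¹' e.source, ?_, ?_, ?_⟩
  · exact e.open_source.inter (e.open_source.preimage (A.continuous_smul w))
  · refine ⟨hxe, ?_⟩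
    show w • x ∈ e.source
    rw [hx]
    exact hxe
  · rintro y ⟨hy1, hy2⟩ hy
    refine e.injOn hy2 hy1 ?_
    rw [← A.dev_smul] at hy
    rw [← he]
    exact hy

/-- An element with trivial holonomy and a fixed point is trivial. -/
theorem eq_one [T2Space X] [PreconnectedSpace X] (w : W) (hw : ∀ p, A.hol w p = p) (x : X)
    (hx : w • x = x) : w = 1 := by
  have hcl : IsClopen {y : X | w • y = y} := by
    refine ⟨isClosed_eq (A.continuous_smul w) continuous_id, ?_⟩
    rw [isOpen_iff_mem_nhds]
    intro y hy
    obtain ⟨U, hU, hyU, hU'⟩ := A.exists_nbhd w y hy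
    refine Filter.mem_of_superset (hU.mem_nhds hyU) fun z hz => hU' z hz (hw _)
  have huniv := hcl.eq_univ ⟨x, hx⟩
  refine A.faithful w fun y => ?_
  have : y ∈ {y : X | w • y = y} := by rw [huniv]; trivial
  exact this

/-- An element with trivial differential and a fixed point is trivial. -/
theorem eq_one_of_lin [T2Space X] [PreconnectedSpace X] (w : W) (hw : ∀ v, A.lin w v = v) (x : X)
    (hx : w • x = x) : w = 1 := by
  refine A.eq_one w (fun p => ?_) x hx
  have h1 : A.hol w (A.dev x) = A.dev x := by rw [← A.dev_smul, hx]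
  have h2 := A.hol_sub w p (A.dev x)
  rw [hw, h1] at h2
  exact sub_left_injective h2

include A in
theorem chartedSpace_aux (x : X) : ∃ e : OpenPartialHomeomorph X E, x ∈ e.source := by
  obtain ⟨e, he, -⟩ := A.isLocalHomeomorph_dev x
  exact ⟨e, he⟩

/-- The manifold structure. -/
@[reducible] noncomputable def chartedSpace : ChartedSpace E X where
  atlas := univ
  chartAt x := Classical.choose (A.chartedSpace_aux x)
  mem_chart_source x := Classical.choose_spec (A.chartedSpace_aux x)
  chart_mem_atlas _ := mem_univ _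

include A in
theorem locallyPathConnectedSpace : LocallyPathConnectedSpace X := by
  let _i := A.chartedSpace
  exact ChartedSpace.locallyPathConnectedSpace E X

include A in
theorem normalSpace [T2Space X] [SecondCountableTopology X] [FiniteDimensional ℝ E] :
    NormalSpace X := by
  let _i := A.chartedSpace
  have : ProperSpace E := FiniteDimensional.proper ℝ E
  have : LocallyCompactSpace X := ChartedSpace.locallyCompactSpace E X
  infer_instance

theorem exists_small : ∃ δ : ℝ, 0 < δ ∧ ∀ v ∈ A.lattice, ‖v‖ < δ → v = 0 := by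
  have := A.discreteTopology_lattice
  have h1 : IsOpen ({0} : Set A.lattice) := isOpen_discrete _
  obtain ⟨δ, hδ, hb⟩ := Metric.isOpen_iff.1 h1 0 rfl
  refine ⟨δ, hδ, fun v hv hn => ?_⟩
  have h2 : (⟨v, hv⟩ : A.lattice) ∈ Metric.ball (0 : A.lattice) δ := by
    rw [Metric.mem_ball, dist_zero_right]
    exact hn
  exact congrArg Subtype.val (hb h2)

/-- The root and the coroot of a reflection: an integral vector and a functional which is integral
on the lattice. -/
theorem exists_root (r : W) (hr : A.IsReflection r) :
    ∃ (e : E) (φ : E →ₗ[ℝ] ℝ), e ∈ A.lattice ∧ φ e = 2 ∧ (∀ v, A.lin r v = v - φ v • e) ∧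
      (∀ v ∈ A.lattice, ∃ n : ℤ, φ v = n) ∧ ∀ t : ℝ, t • e ∈ A.lattice → ∃ n : ℤ, t = n := by
  obtain ⟨hrr, -, hrk⟩ := hr
  obtain ⟨⟨a, ha⟩, ha0, hspan⟩ := finrank_eq_one_iff'.1 hrk
  have ha0' : a ≠ 0 := fun h => ha0 (Subtype.ext h)
  have hc : ∀ v, ∃ c : ℝ, A.lin r v - v = c • a := by
    intro v
    obtain ⟨c, hc⟩ := hspan ⟨(A.lin r - LinearMap.id : E →ₗ[ℝ] E) v, LinearMap.mem_range_self _ v⟩
    refine ⟨c, ?_⟩
    have := congrArg Subtype.val hc
    simpa using this.symm
  obtain ⟨ψ, hψ⟩ : ∃ ψ : E →ₗ[ℝ] ℝ, ψ a = 1 := by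
    obtain ⟨f, hf⟩ := Module.Projective.exists_dual_eq_one ℝ ha0'
    exact ⟨f, hf⟩
  let φ0 : E →ₗ[ℝ] ℝ := ψ ∘ₗ (LinearMap.id - A.lin r)
  have hφ0 : ∀ v, v - A.lin r v = φ0 v • a := by
    intro v
    obtain ⟨c, hc⟩ := hc v
    have h1 : v - A.lin r v = (-c) • a := by rw [neg_smul, ← hc]; abel
    have h2 : φ0 v = -c := by
      show ψ (v - A.lin r v) = -c
      rw [h1, map_smul, hψ]
      simp
    rw [h1, h2]
  have hLL : ∀ v, A.lin r (A.lin r v) = v := by
    intro v
    rw [← A.lin_mul, hrr, A.lin_one]
  obtain ⟨v1, hv1⟩ := ha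
  have hv1' : A.lin r v1 - v1 = a := by simpa using hv1
  have hLa : A.lin r a = -a := by
    rw [← hv1', map_sub, hLL]
    abel
  have hφa : φ0 a = 2 := by
    have h1 := hφ0 a
    rw [hLa] at h1
    have h2 : (2 - φ0 a) • a = 0 := by
      rw [sub_smul, ← h1, two_smul]
      abel
    rcases smul_eq_zero.1 h2 with h3 | h3
    · linarith
    · exact absurd h3 ha0'
  obtain ⟨l, hl, hl0⟩ : ∃ l ∈ A.lattice, φ0 l ≠ 0 := by
    by_contra hcon
    push Not at hcon
    have h1 : Submodule.span ℝ (A.lattice : Set E) ≤ LinearMap.ker φ0 := by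
      rw [Submodule.span_le]
      intro v hv
      exact hcon v hv
    rw [A.span_lattice] at h1
    have h2 : φ0 a = 0 := h1 (Submodule.mem_top (x := a))
    rw [hφa] at h2
    norm_num at h2
  obtain ⟨δ, hδ, hsmall⟩ := A.exists_small
  let H : AddSubgroup ℝ :=
    { carrier := {t | t • a ∈ A.lattice}
      zero_mem' := by
        show (0 : ℝ) • a ∈ A.lattice
        rw [zero_smul]
        exact zero_mem _
      add_mem' := by
        intro s t hs ht
        show (s + t) • a ∈ A.lattice
        rw [add_smul]
        exact add_mem hs ht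
      neg_mem' := by
        intro t ht
        show (-t) • a ∈ A.lattice
        rw [neg_smul]
        exact neg_mem ht }
  have hna : 0 < ‖a‖ := norm_pos_iff.2 ha0'
  obtain ⟨b, hb⟩ := AddSubgroup.cyclic_of_isolated_zero (H := H) (a := δ / ‖a‖)
    (div_pos hδ hna) (by
      rw [Set.disjoint_left]
      intro t ht ht'
      have h1 : t • a ∈ A.lattice := ht
      have h2 := hsmall _ h1 (by
        rw [norm_smul, Real.norm_of_nonneg ht'.1.le]
        have := ht'.2
        rwa [lt_div_iff₀ hna] at this)
      rcases smul_eq_zero.1 h2 with h3 | h3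
      · exact absurd h3 ht'.1.ne'
      · exact ha0' h3)
  have hH : ∀ t : ℝ, t • a ∈ A.lattice → ∃ n : ℤ, t = n * b := by
    intro t ht
    have h1 : t ∈ H := ht
    rw [hb, AddSubgroup.mem_closure_singleton] at h1
    obtain ⟨n, hn⟩ := h1
    refine ⟨n, ?_⟩
    rw [← hn]
    simp
  have hlH : φ0 l • a ∈ A.lattice := by
    rw [← hφ0]
    exact sub_mem hl (A.linear_mem r l hl)
  have hb0 : b ≠ 0 := by
    rintro rfl
    obtain ⟨n, hn⟩ := hH _ hlH
    rw [mul_zero] at hn
    exact hl0 hn
  have hbH : b • a ∈ A.lattice := by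
    have h1 : b ∈ H := by
      rw [hb]
      exact AddSubgroup.subset_closure rfl
    exact h1
  refine ⟨b • a, b⁻¹ • φ0, hbH, ?_, ?_, ?_, ?_⟩
  · rw [LinearMap.smul_apply, map_smul, hφa]
    simp only [smul_eq_mul]
    field_simp
  · intro v
    rw [LinearMap.smul_apply, smul_smul, smul_eq_mul]
    have h1 : b⁻¹ * φ0 v * b = φ0 v := by field_simp
    rw [h1, ← hφ0]
    abel
  · intro v hv
    have h1 : φ0 v • a ∈ A.lattice := by
      rw [← hφ0]
      exact sub_mem hv (A.linear_mem r v hv)
    obtain ⟨n, hn⟩ := hH _ h1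
    refine ⟨n, ?_⟩
    rw [LinearMap.smul_apply, hn, smul_eq_mul]
    field_simp
  · intro t ht
    rw [smul_smul] at ht
    obtain ⟨n, hn⟩ := hH _ ht
    exact ⟨n, mul_right_cancel₀ hb0 hn⟩

end IntegralAffineAction

end Pool.Agent.H817.WG
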