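import Mathlib

/-!
# The side function of a mirror in a simply connected space

Let `X` be simply connected, `s` an involution of `X`, `f` a real function with `f ∘ s = -f`, and
`F` a non-empty closed set of fixed points of `s` which is relatively open in `{f = 0}`. Then there
is a continuous function `g` with `g ∘ s = -g` whose zero set is exactly `F`.
-/

open Set Topology

namespace Pool.Agent.H817.WG

variable {X : Type*}

/-- The auxiliary map to the circle. -/
noncomputable def preU (f h : X → ℝ) (x : X) : ℂ :=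
  if h x = 0 then 1 else ((f x : ℂ) + Complex.I * h x) ^ 2 / ((f x : ℂ) ^ 2 + (h x : ℂ) ^ 2)

theorem preU_eq {f h : X → ℝ} {x : X} (hx : f x ≠ 0 ∨ h x ≠ 0) :
    preU f h x = ((f x : ℂ) + Complex.I * h x) ^ 2 / ((f x : ℂ) ^ 2 + (h x : ℂ) ^ 2) := by
  unfold preU
  split_ifs with h0
  · have hf : f x ≠ 0 := by
      rcases hx with h1 | h1
      · exact h1
      · exact absurd h0 h1
    have hf' : (f x : ℂ) ≠ 0 := by exact_mod_cast hf
    rw [h0]
    simp only [Complex.ofReal_zero, mul_zero, add_zero]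
    rw [zero_pow two_ne_zero, add_zero, div_self (pow_ne_zero 2 hf')]
  · rfl

theorem den_ne {a b : ℝ} (h : a ≠ 0 ∨ b ≠ 0) : ((a : ℂ) ^ 2 + (b : ℂ) ^ 2) ≠ 0 := by
  have h1 : a ^ 2 + b ^ 2 ≠ 0 := by
    rcases h with h | h
    · have := sq_pos_of_ne_zero h
      nlinarith [sq_nonneg b]
    · have := sq_pos_of_ne_zero h
      nlinarith [sq_nonneg a]
  exact_mod_cast h1

theorem preU_norm (f h : X → ℝ) (x : X) : ‖preU f h x‖ = 1 := by
  unfold preU
  split_ifs with h0
  · simp
  · have h1 : (f x) ^ 2 + (h x) ^ 2 > 0 := by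
      have := sq_pos_of_ne_zero h0
      nlinarith [sq_nonneg (f x)]
    rw [norm_div, norm_pow, ← Complex.normSq_eq_norm_sq]
    have h2 : Complex.normSq ((f x : ℂ) + Complex.I * h x) = (f x) ^ 2 + (h x) ^ 2 := by
      rw [Complex.normSq_apply]
      simp
      ring
    have h3 : ‖((f x : ℂ) ^ 2 + (h x : ℂ) ^ 2)‖ = (f x) ^ 2 + (h x) ^ 2 := by
      have : ((f x : ℂ) ^ 2 + (h x : ℂ) ^ 2) = (((f x) ^ 2 + (h x) ^ 2 : ℝ) : ℂ) := by
        push_cast; ring
      rw [this, Complex.norm_real, Real.norm_of_nonneg h1.le]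
    rw [h2, h3, div_self h1.ne']

theorem preU_continuous [TopologicalSpace X] {f h : X → ℝ} (hf : Continuous f) (hh : Continuous h)
    (hz : ∀ x, f x = 0 → h x = 0 → ∃ V, IsOpen V ∧ x ∈ V ∧ ∀ y ∈ V, h y = 0) :
    Continuous (preU f h) := by
  rw [continuous_iff_continuousAt]
  intro x
  by_cases hx : f x = 0 ∧ h x = 0
  · obtain ⟨V, hV, hxV, hV0⟩ := hz x hx.1 hx.2
    have h1 : preU f h =ᶠ[𝓝 x] fun _ => 1 := by
      filter_upwards [hV.mem_nhds hxV] with y hy
      unfold preU
      rw [if_pos (hV0 y hy)]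
    exact (continuousAt_const).congr h1.symm
  · have hx' : f x ≠ 0 ∨ h x ≠ 0 := by
      by_contra hc
      push Not at hc
      exact hx hc
    have hO : IsOpen {y | f y ≠ 0 ∨ h y ≠ 0} :=
      (isOpen_ne_fun hf continuous_const).union (isOpen_ne_fun hh continuous_const)
    have h1 : preU f h =ᶠ[𝓝 x] fun y =>
        ((f y : ℂ) + Complex.I * h y) ^ 2 / ((f y : ℂ) ^ 2 + (h y : ℂ) ^ 2) := by
      filter_upwards [hO.mem_nhds hx'] with y hy
      exact preU_eq hy
    have h2 : ContinuousAt (fun y =>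
        ((f y : ℂ) + Complex.I * h y) ^ 2 / ((f y : ℂ) ^ 2 + (h y : ℂ) ^ 2)) x := by
      refine ContinuousAt.div ?_ ?_ (den_ne hx')
      · fun_prop
      · fun_prop
    exact h2.congr h1.symm

/-- The lift of `preU` to the real line. -/
theorem exists_angle [TopologicalSpace X] [SimplyConnectedSpace X] [LocallyPathConnectedSpace X]
    (u : X → ℂ) (hu : Continuous u) (hn : ∀ x, ‖u x‖ = 1) :
    ∃ t : X → ℝ, Continuous t ∧ ∀ x, Complex.exp (t x * Complex.I) = u x := by
  obtain ⟨x0⟩ : Nonempty X := inferInstance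
  let c : C(X, Circle) := ⟨fun x => ⟨u x, mem_sphere_zero_iff_norm.2 (hn x)⟩, by
    exact Continuous.subtype_mk hu _⟩
  obtain ⟨e0, he0⟩ : ∃ e0, Circle.exp e0 = c x0 := ⟨_, Circle.exp_arg (c x0)⟩
  obtain ⟨F, ⟨hF0, hF⟩, -⟩ :=
    Circle.isCoveringMap_exp.existsUnique_continuousMap_lifts c x0 e0 he0
  refine ⟨F, F.continuous, fun x => ?_⟩
  have h1 : Circle.exp (F x) = c x := congrFun hF x
  have h2 := congrArg (fun z : Circle => (z : ℂ)) h1
  simpa [Circle.coe_exp] using! h2

/-- **The side function.** -/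
theorem exists_side [TopologicalSpace X] [SimplyConnectedSpace X] [LocallyPathConnectedSpace X]
    [NormalSpace X] (s : X → X) (hs : Continuous s) (hss : ∀ x, s (s x) = x)
    (f : X → ℝ) (hf : Continuous f) (hfs : ∀ x, f (s x) = - f x)
    (F : Set X) (hF : IsClosed F) (hF0 : F.Nonempty) (hFs : ∀ x ∈ F, s x = x)
    (hZ : IsClosed {x | f x = 0 ∧ x ∉ F}) :
    ∃ g : X → ℝ, Continuous g ∧ (∀ x, g (s x) = - g x) ∧ ∀ x, g x = 0 ↔ x ∈ F := by
  have hfF : ∀ x ∈ F, f x = 0 := by
    intro x hx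
    have := hfs x
    rw [hFs x hx] at this
    linarith
  have hdis : Disjoint {x | f x = 0 ∧ x ∉ F} F := by
    rw [Set.disjoint_left]
    intro x hx hx'
    exact hx.2 hx'
  obtain ⟨g0, hg0, hg1, hg01⟩ := exists_continuous_zero_one_of_isClosed hZ hF hdis
  let h : X → ℝ := fun x => max 0 ((g0 x + g0 (s x)) / 2 - 1 / 2)
  have hh : Continuous h := by
    have := g0.continuous
    fun_prop
  have hhs : ∀ x, h (s x) = h x := by
    intro x
    simp only [h]
    rw [hss, add_comm]
  have hhF : ∀ x ∈ F, h x = 1 / 2 := by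
    intro x hx
    simp only [h]
    rw [hFs x hx, hg1 hx]
    norm_num
  have hsZ : ∀ x, f x = 0 → x ∉ F → f (s x) = 0 ∧ s x ∉ F := by
    intro x hx hxF
    refine ⟨by rw [hfs, hx, neg_zero], fun hc => hxF ?_⟩
    have := hFs _ hc
    rw [hss] at this
    rw [this]
    exact hc
  have hhZ : ∀ x, f x = 0 → h x = 0 → ∃ V, IsOpen V ∧ x ∈ V ∧ ∀ y ∈ V, h y = 0 := by
    intro x hx hx0
    have hxF : x ∉ F := by
      intro hc
      rw [hhF x hc] at hx0
      norm_num at hx0
    refine ⟨{y | (g0 y + g0 (s y)) / 2 < 1 / 2}, ?_, ?_, ?_⟩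
    · have := g0.continuous
      exact isOpen_lt (by fun_prop) continuous_const
    · have h1 : g0 x = 0 := hg0 ⟨hx, hxF⟩
      have h2 : g0 (s x) = 0 := hg0 (hsZ x hx hxF)
      show (g0 x + g0 (s x)) / 2 < 1 / 2
      rw [h1, h2]
      norm_num
    · intro y hy
      have hy' : (g0 y + g0 (s y)) / 2 < 1 / 2 := hy
      exact max_eq_left (by linarith)
  have hZh : ∀ x, f x = 0 → x ∉ F → h x = 0 := by
    intro x hx hxF
    have h1 : g0 x = 0 := hg0 ⟨hx, hxF⟩
    have h2 : g0 (s x) = 0 := hg0 (hsZ x hx hxF)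
    show max 0 ((g0 x + g0 (s x)) / 2 - 1 / 2) = 0
    rw [h1, h2]
    norm_num
  obtain ⟨t, ht, hte⟩ := exists_angle (preU f h) (preU_continuous hf hh hhZ) (preU_norm f h)
  -- symmetry of the map to the circle
  have husym : ∀ x, preU f h x * preU f h (s x) = 1 := by
    intro x
    by_cases h0 : h x = 0
    · have h1 : preU f h x = 1 := by unfold preU; rw [if_pos h0]
      have h2 : preU f h (s x) = 1 := by unfold preU; rw [if_pos ((hhs x).trans h0)]
      rw [h1, h2, one_mul]
    · rw [preU_eq (Or.inr h0), preU_eq (x := s x) (Or.inr (by rw [hhs]; exact h0)), hhs, hfs]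
      have hd := den_ne (a := f x) (b := h x) (Or.inr h0)
      push_cast
      rw [neg_sq, div_mul_div_comm, ← mul_pow, div_eq_one_iff_eq (mul_ne_zero hd hd)]
      have : ((f x : ℂ) + Complex.I * h x) * (-(f x : ℂ) + Complex.I * h x) =
          -((f x : ℂ) ^ 2 + (h x : ℂ) ^ 2) := by
        linear_combination ((h x : ℂ) ^ 2) * Complex.I_sq
      rw [this]
      ring
  have hsum : ∀ x, ∃ n : ℤ, t x + t (s x) = n * (2 * Real.pi) := by
    intro x
    have h1 := husym x
    rw [← hte, ← hte, ← Complex.exp_add, Complex.exp_eq_one_iff] at h1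
    obtain ⟨n, hn⟩ := h1
    refine ⟨n, ?_⟩
    have h2 : ((t x + t (s x) : ℝ) : ℂ) * Complex.I = ((n * (2 * Real.pi) : ℝ) : ℂ) * Complex.I := by
      push_cast
      rw [add_mul, hn]
      ring
    have h3 := mul_right_cancel₀ Complex.I_ne_zero h2
    exact_mod_cast h3
  obtain ⟨x1, hx1⟩ := hF0
  have hcst : ∀ x, t x + t (s x) = 2 * t x1 := by
    intro x
    have hc : Continuous fun x => (t x + t (s x)) / (2 * Real.pi) := by fun_prop
    have hpre : IsPreconnected (univ : Set X) := isPreconnected_univ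
    have hr : ∀ y, (t y + t (s y)) / (2 * Real.pi) ∈ Set.range (fun n : ℤ => (n : ℝ)) := by
      intro y
      obtain ⟨n, hn⟩ := hsum y
      refine ⟨n, ?_⟩
      rw [hn]
      have := Real.pi_ne_zero
      field_simp
    have hdisc : (t x + t (s x)) / (2 * Real.pi) = (t x1 + t (s x1)) / (2 * Real.pi) := by
      have hcl : IsPreconnected (Set.range fun x => (t x + t (s x)) / (2 * Real.pi)) :=
        isPreconnected_range hc
      have hsub : (Set.range fun x => (t x + t (s x)) / (2 * Real.pi)) ⊆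
          Set.range (fun n : ℤ => (n : ℝ)) := by
        rintro _ ⟨y, rfl⟩
        exact hr y
      have hcount : (Set.range (fun n : ℤ => (n : ℝ))).Countable := Set.countable_range _
      have hss' := (hcount.mono hsub).isTotallyDisconnected _ (Subset.refl _) hcl
      exact hss' ⟨x, rfl⟩ ⟨x1, rfl⟩
    have hpi := Real.pi_ne_zero
    have h4 : t x + t (s x) = t x1 + t (s x1) := by
      field_simp at hdisc
      linarith
    rw [h4, hFs x1 hx1]
    ring
  have hu1 : Complex.exp (t x1 * Complex.I) = -1 := by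
    rw [hte, preU_eq (Or.inr (by rw [hhF x1 hx1]; norm_num)), hfF x1 hx1, hhF x1 hx1]
    push_cast
    have := Complex.I_sq
    field_simp
    norm_num
  refine ⟨fun x => t x - t x1, by fun_prop, fun x => ?_, fun x => ⟨fun hx => ?_, fun hx => ?_⟩⟩
  · have := hcst x
    show t (s x) - t x1 = -(t x - t x1)
    linarith
  · have hx' : t x = t x1 := by linarith [hx]
    have h1 : preU f h x = -1 := by rw [← hte, hx', hu1]
    by_cases h0 : h x = 0
    · unfold preU at h1
      rw [if_pos h0] at h1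
      norm_num at h1
    · rw [preU_eq (Or.inr h0)] at h1
      have hd := den_ne (a := f x) (b := h x) (Or.inr h0)
      rw [div_eq_iff hd] at h1
      have hre := congrArg Complex.re h1
      have hfx : f x = 0 := by
        have e1 : (((f x : ℂ) + Complex.I * h x) ^ 2).re = f x ^ 2 - h x ^ 2 := by
          rw [sq]
          simp [Complex.mul_re, Complex.mul_im]
          ring
        have e2 : (-1 * ((f x : ℂ) ^ 2 + (h x : ℂ) ^ 2)).re = -(f x ^ 2 + h x ^ 2) := by
          have : (-1 * ((f x : ℂ) ^ 2 + (h x : ℂ) ^ 2)) = ((-(f x ^ 2 + h x ^ 2) : ℝ) : ℂ) := by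
            push_cast; ring
          rw [this, Complex.ofReal_re]
        rw [e1, e2] at hre
        nlinarith [sq_nonneg (f x)]
      by_contra hxF
      exact h0 (hZh x hfx hxF)
  · have h1 := hcst x
    rw [hFs x hx] at h1
    show t x - t x1 = 0
    linarith

end Pool.Agent.H817.WG
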