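import Mathlib
import Pool.Agent.H817.WG.Defs
import Pool.Agent.H817.WG.Side

/-!
# Mirrors of geometric reflections

In a simply connected integral affine manifold the mirror of a geometric reflection is connected
and separates. If the product of two geometric reflections has finite order, then their mirrors
meet.
-/

open Set Topology Module

namespace Pool.Agent.H817.WG

theorem pos_of_isPreconnected {X : Type*} [TopologicalSpace X] {S : Set X} (hS : IsPreconnected S)
    {g : X → ℝ} (hg : Continuous g) (h0 : ∀ x ∈ S, g x ≠ 0) {a : X} (ha : a ∈ S) (hpos : 0 < g a) :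
    ∀ x ∈ S, 0 < g x := by
  intro x hx
  by_contra hc
  push Not at hc
  have h1 := hS.intermediate_value hx ha hg.continuousOn
  obtain ⟨y, hy, hy0⟩ := h1 ⟨hc, hpos.le⟩
  exact h0 y hy hy0

namespace IntegralAffineAction

variable {W X E : Type*} [Group W] [TopologicalSpace X] [MulAction W X]
  [NormedAddCommGroup E] [NormedSpace ℝ E]

variable (A : IntegralAffineAction W X E)

/-- The mirror of `r`. -/
def mirror (_ : IntegralAffineAction W X E) (r : W) : Set X := {x | r • x = x}

theorem isClosed_mirror [T2Space X] (r : W) : IsClosed (A.mirror r) :=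
  isClosed_eq (A.continuous_smul r) continuous_id

theorem exists_side_aux [T2Space X] [SecondCountableTopology X] [SimplyConnectedSpace X]
    [FiniteDimensional ℝ E] (r : W) (hr : A.IsReflection r) (F : Set X) (hF : IsClosed F)
    (hF0 : F.Nonempty) (hFm : F ⊆ A.mirror r) (hFc : IsClosed (A.mirror r \ F)) :
    ∃ g : X → ℝ, Continuous g ∧ (∀ x, g (r • x) = - g x) ∧ ∀ x, g x = 0 ↔ x ∈ F := by
  have h1 := A.locallyPathConnectedSpace
  have h2 := A.normalSpace
  obtain ⟨e, φ, -, hφe, hrφ, -, -⟩ := A.exists_root r hr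
  obtain ⟨x0, hx0⟩ := hr.2.1
  have hdev : Continuous A.dev := A.isLocalHomeomorph_dev.continuous
  have hφc : Continuous φ := φ.continuous_of_finiteDimensional
  have hfix : A.hol r (A.dev x0) = A.dev x0 := by rw [← A.dev_smul, hx0]
  have key : ∀ y, A.dev (r • y) - A.dev x0 = A.lin r (A.dev y - A.dev x0) := by
    intro y
    rw [A.dev_smul, ← A.hol_sub, hfix]
  have hrr : ∀ x : X, r • r • x = x := by
    intro x
    rw [← mul_smul, hr.1, one_smul]
  refine exists_side (fun x => r • x) (A.continuous_smul r) hrr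
    (fun x => φ (A.dev x - A.dev x0)) (by fun_prop) ?_ F hF hF0 (fun x hx => hFm hx) ?_
  · intro x
    show φ (A.dev (r • x) - A.dev x0) = - φ (A.dev x - A.dev x0)
    rw [key, hrφ, map_sub, map_smul, hφe, smul_eq_mul]
    ring
  · have h3 : {x | φ (A.dev x - A.dev x0) = 0 ∧ x ∉ F} =
        {x | φ (A.dev x - A.dev x0) = 0 ∧ x ∉ A.mirror r} ∪ (A.mirror r \ F) := by
      ext x
      simp only [mem_ofPred_eq, mem_union, mem_sdiff]
      constructor
      · rintro ⟨h4, h5⟩
        by_cases h6 : x ∈ A.mirror r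
        · exact Or.inr ⟨h6, h5⟩
        · exact Or.inl ⟨h4, h6⟩
      · rintro (⟨h4, h5⟩ | ⟨h4, h5⟩)
        · exact ⟨h4, fun h6 => h5 (hFm h6)⟩
        · refine ⟨?_, h5⟩
          have h6 : r • x = x := h4
          have h7 := key x
          rw [h6] at h7
          have h8 := congrArg φ h7
          rw [hrφ, map_sub φ (A.dev x - A.dev x0), map_smul, hφe, smul_eq_mul] at h8
          linarith
    rw [h3]
    refine IsClosed.union ?_ hFc
    rw [← isOpen_compl_iff, isOpen_iff_mem_nhds]
    intro x hx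
    by_cases h4 : φ (A.dev x - A.dev x0) = 0
    · have h5 : x ∈ A.mirror r := by
        by_contra h6
        exact hx ⟨h4, h6⟩
      obtain ⟨U, hU, hxU, hU'⟩ := A.exists_nbhd r x h5
      refine Filter.mem_of_superset (hU.mem_nhds hxU) ?_
      rintro y hy ⟨hy1, hy2⟩
      refine hy2 (hU' y hy ?_)
      have h6 : A.hol r (A.dev y) - A.dev x0 = A.dev y - A.dev x0 := by
        rw [← A.dev_smul, key, hrφ, hy1, zero_smul, sub_zero]
      exact sub_left_injective h6
    · have hO : IsOpen {y | φ (A.dev y - A.dev x0) ≠ 0} :=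
        isOpen_ne_fun (by fun_prop) continuous_const
      refine Filter.mem_of_superset (hO.mem_nhds h4) ?_
      rintro y hy ⟨hy1, -⟩
      exact hy hy1

/-- A mirror is connected. -/
theorem isPreconnected_mirror [T2Space X] [SecondCountableTopology X] [SimplyConnectedSpace X]
    [FiniteDimensional ℝ E] (r : W) (hr : A.IsReflection r) : IsPreconnected (A.mirror r) := by
  have hcl := A.isClosed_mirror r
  rw [isPreconnected_closed_iff]
  intro P Q hP hQ hcov hmP hmQ
  by_contra hne
  rw [Set.not_nonempty_iff_eq_empty] at hne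
  obtain ⟨g, -, hgs, hg0⟩ := A.exists_side_aux r hr (A.mirror r ∩ P) (hcl.inter hP) hmP
    inter_subset_left (by
      have : A.mirror r \ (A.mirror r ∩ P) = A.mirror r ∩ Q := by
        ext x
        constructor
        · rintro ⟨h1, h2⟩
          refine ⟨h1, ?_⟩
          rcases hcov h1 with h3 | h3
          · exact absurd ⟨h1, h3⟩ h2
          · exact h3
        · rintro ⟨h1, h2⟩
          refine ⟨h1, fun h3 => ?_⟩
          have : x ∈ A.mirror r ∩ (P ∩ Q) := ⟨h1, h3.2, h2⟩
          rw [hne] at this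
          exact this
      rw [this]
      exact hcl.inter hQ)
  obtain ⟨x, hx, hxQ⟩ := hmQ
  have h1 := hgs x
  have h2 : r • x = x := hx
  rw [h2] at h1
  have h3 : g x = 0 := by linarith
  have h4 := (hg0 x).1 h3
  have : x ∈ A.mirror r ∩ (P ∩ Q) := ⟨hx, h4.2, hxQ⟩
  rw [hne] at this
  exact this

/-- A mirror separates. -/
theorem exists_sideFun [T2Space X] [SecondCountableTopology X] [SimplyConnectedSpace X]
    [FiniteDimensional ℝ E] (r : W) (hr : A.IsReflection r) :
    ∃ g : X → ℝ, Continuous g ∧ (∀ x, g (r • x) = - g x) ∧ ∀ x, g x = 0 ↔ x ∈ A.mirror r :=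
  A.exists_side_aux r hr (A.mirror r) (A.isClosed_mirror r) hr.2.1 (Subset.refl _) (by simp)

/-- If two mirrors do not meet, then there are side functions which are positive on the other
mirror. -/
theorem exists_pos_sideFun [T2Space X] [SecondCountableTopology X] [SimplyConnectedSpace X]
    [FiniteDimensional ℝ E] (r s : W) (hr : A.IsReflection r) (hs : A.IsReflection s)
    (hrs : ∀ x, ¬ (x ∈ A.mirror r ∧ x ∈ A.mirror s)) :
    ∃ g : X → ℝ, Continuous g ∧ (∀ x, g (r • x) = - g x) ∧ (∀ x, g x = 0 ↔ x ∈ A.mirror r) ∧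
      ∀ x ∈ A.mirror s, 0 < g x := by
  obtain ⟨g, hg, hgr, hg0⟩ := A.exists_sideFun r hr
  have hne : ∀ x ∈ A.mirror s, g x ≠ 0 := fun x hx h => hrs x ⟨(hg0 x).1 h, hx⟩
  obtain ⟨y, hy⟩ := hs.2.1
  rcases lt_or_gt_of_ne (hne y hy) with h | h
  · refine ⟨fun x => - g x, hg.neg, fun x => ?_, fun x => ?_, ?_⟩
    · show -(g (r • x)) = -(-g x)
      rw [hgr]
    · rw [neg_eq_zero]
      exact hg0 x
    · refine pos_of_isPreconnected (A.isPreconnected_mirror s hs) hg.neg ?_ hy (by simpa using h)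
      intro x hx h'
      exact hne x hx (neg_eq_zero.1 h')
  · exact ⟨g, hg, hgr, hg0, pos_of_isPreconnected (A.isPreconnected_mirror s hs) hg hne hy h⟩

/-- **Ping-pong.** If the product of two geometric reflections has finite order, then their mirrors
meet. -/
theorem exists_common [T2Space X] [SecondCountableTopology X] [SimplyConnectedSpace X]
    [FiniteDimensional ℝ E] (r s : W) (hr : A.IsReflection r) (hs : A.IsReflection s)
    (hfin : IsOfFinOrder (r * s)) : ∃ x : X, r • x = x ∧ s • x = x := by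
  by_contra hcon
  have hrs : ∀ x, ¬ (x ∈ A.mirror r ∧ x ∈ A.mirror s) := by
    intro x hx
    exact hcon ⟨x, hx.1, hx.2⟩
  obtain ⟨gr, hgr, hgr1, hgr0, hgrs⟩ := A.exists_pos_sideFun r s hr hs hrs
  obtain ⟨gs, hgs, hgs1, hgs0, hgsr⟩ := A.exists_pos_sideFun s r hs hr
    (fun x hx => hrs x ⟨hx.2, hx.1⟩)
  have hP : {x : X | gr x ≤ 0 ∧ gs x ≤ 0} = {x | gr x < 0 ∧ gs x < 0} := by
    ext x
    constructor
    · rintro ⟨h1, h2⟩
      refine ⟨lt_of_le_of_ne h1 fun h3 => ?_, lt_of_le_of_ne h2 fun h3 => ?_⟩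
      · exact absurd (hgsr x ((hgr0 x).1 h3)) (not_lt.2 h2)
      · exact absurd (hgrs x ((hgs0 x).1 h3)) (not_lt.2 h1)
    · rintro ⟨h1, h2⟩
      exact ⟨h1.le, h2.le⟩
  have hclopen : IsClopen {x : X | gr x ≤ 0 ∧ gs x ≤ 0} := by
    refine ⟨(isClosed_le hgr continuous_const).inter (isClosed_le hgs continuous_const), ?_⟩
    rw [hP]
    exact (isOpen_lt hgr continuous_const).inter (isOpen_lt hgs continuous_const)
  obtain ⟨x0, hx0⟩ := hr.2.1
  have hempty : ∀ x : X, ¬ (gr x ≤ 0 ∧ gs x ≤ 0) := by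
    rcases isClopen_iff.1 hclopen with h | h
    · intro x hx
      have : x ∈ {x : X | gr x ≤ 0 ∧ gs x ≤ 0} := hx
      rw [h] at this
      exact this
    · have : x0 ∈ {x : X | gr x ≤ 0 ∧ gs x ≤ 0} := by rw [h]; trivial
      exact absurd (hgsr x0 hx0) (not_lt.2 this.2)
  have hstep : ∀ y : X, 0 < gs y → gr ((r * s) • y) < 0 ∧ 0 < gs ((r * s) • y) := by
    intro y hy
    have h1 : gs (s • y) < 0 := by rw [hgs1]; linarith
    have h2 : 0 < gr (s • y) := by
      by_contra h3
      exact hempty (s • y) ⟨not_lt.1 h3, h1.le⟩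
    have h3 : gr ((r * s) • y) < 0 := by rw [mul_smul, hgr1]; linarith
    refine ⟨h3, ?_⟩
    by_contra h4
    exact hempty _ ⟨h3.le, not_lt.1 h4⟩
  have hiter : ∀ n : ℕ, gr ((r * s) ^ (n + 1) • x0) < 0 ∧ 0 < gs ((r * s) ^ (n + 1) • x0) := by
    intro n
    induction n with
    | zero =>
      rw [zero_add, pow_one]
      exact hstep x0 (hgsr x0 hx0)
    | succ n ih =>
      rw [pow_succ', mul_smul]
      exact hstep _ ih.2
  obtain ⟨n, hn, hn1⟩ := isOfFinOrder_iff_pow_eq_one.1 hfin
  obtain ⟨m, rfl⟩ : ∃ m, n = m + 1 := ⟨n - 1, by omega⟩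
  have h1 := (hiter m).1
  rw [hn1, one_smul] at h1
  have h2 : gr x0 = 0 := (hgr0 x0).2 hx0
  linarith

end IntegralAffineAction

end Pool.Agent.H817.WG
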