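import Mathlib
import Pool.Agent.H817.WG.Mirror

/-!
# The order of a product of two geometric reflections

Invariant inner products, and the crystallographic restriction: if the product of two geometric
reflections has finite order, then this order is `1`, `2`, `3`, `4` or `6`.
-/

open Set Topology Module

namespace Pool.Agent.H817.WG

/-- `B` is an inner product on `E`. -/
structure IsInner {E : Type*} [AddCommGroup E] [Module ℝ E] (B : E →ₗ[ℝ] E →ₗ[ℝ] ℝ) : Prop where
  symm : ∀ v w, B v w = B w v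
  pos : ∀ v, v ≠ 0 → 0 < B v v

variable {E : Type*} [AddCommGroup E] [Module ℝ E] {B : E →ₗ[ℝ] E →ₗ[ℝ] ℝ}

theorem IsInner.eq_zero (hB : IsInner B) {v : E} (h : B v v ≤ 0) : v = 0 := by
  by_contra hv
  exact absurd (hB.pos v hv) (not_lt.2 h)

/-- The coroot of an orthogonal reflection. -/
theorem coroot {e : E} {φ : E →ₗ[ℝ] ℝ} (he : φ e = 2)
    (hinv : ∀ v w, B (v - φ v • e) (w - φ w • e) = B v w) (v : E) :
    φ v * B e e = 2 * B e v := by
  have h1 := hinv e v
  rw [he] at h1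
  simp only [map_sub, map_smul, LinearMap.sub_apply, LinearMap.smul_apply, smul_eq_mul] at h1
  linarith

/-- Two reflections with proportional roots coincide. -/
theorem eq_of_proportional {E : Type*} [AddCommGroup E] [Module ℝ E] {B : E →ₗ[ℝ] E →ₗ[ℝ] ℝ} (hB : IsInner B) {e e' : E}
    {φ φ' : E →ₗ[ℝ] ℝ} (hφ : φ e = 2) (hφB : ∀ v, φ v * B e e = 2 * B e v)
    (hφB' : ∀ v, φ' v * B e' e' = 2 * B e' v) {t : ℝ} (ht : e' = t • e) (ht0 : t ≠ 0) (v : E) :
    φ' v • e' = φ v • e := by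
  have he : e ≠ 0 := by
    rintro rfl
    rw [map_zero] at hφ
    norm_num at hφ
  have hpos := hB.pos e he
  have h1 := hφB' v
  rw [ht] at h1
  simp only [map_smul, LinearMap.smul_apply, smul_eq_mul] at h1
  have h2 := hφB v
  have h3 : φ' v * t = φ v := by
    have h4 : t * B e e * (φ' v * t - φ v) = 0 := by
      linear_combination h1 - t * h2
    rcases mul_eq_zero.1 h4 with h5 | h5
    · exact absurd h5 (mul_ne_zero ht0 hpos.ne')
    · linarith
  rw [ht, smul_smul, h3]

namespace IntegralAffineAction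

variable {W X E : Type*} [Group W] [TopologicalSpace X] [MulAction W X]
  [NormedAddCommGroup E] [NormedSpace ℝ E]

variable (A : IntegralAffineAction W X E)

theorem lin_injective (w : W) (v : E) (h : A.lin w v = 0) : v = 0 := by
  have h1 := A.lin_mul w⁻¹ w v
  rw [inv_mul_cancel, A.lin_one, h, map_zero] at h1
  exact h1

/-- Averaging over a finite set which is invariant under right multiplication. -/
theorem exists_inner [FiniteDimensional ℝ E] (K : Set W) (hK : K.Finite) (hK0 : K.Nonempty) :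
    ∃ B : E →ₗ[ℝ] E →ₗ[ℝ] ℝ, IsInner B ∧
      ∀ w : W, (∀ k, k ∈ K ↔ k * w ∈ K) → ∀ v u, B (A.lin w v) (A.lin w u) = B v u := by
  classical
  let T : E ≃L[ℝ] EuclideanSpace ℝ (Fin (finrank ℝ E)) := toEuclidean
  let T' : E →ₗ[ℝ] EuclideanSpace ℝ (Fin (finrank ℝ E)) := T.toLinearEquiv
  let B0 : E →ₗ[ℝ] E →ₗ[ℝ] ℝ := (innerₗ (EuclideanSpace ℝ (Fin (finrank ℝ E)))).compl₁₂ T' T'
  have hB0 : ∀ v u, B0 v u = inner ℝ (T v) (T u) := fun v u => rfl
  let B : E →ₗ[ℝ] E →ₗ[ℝ] ℝ := ∑ k ∈ hK.toFinset, B0.compl₁₂ (A.lin k) (A.lin k)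
  have hB : ∀ v u, B v u = ∑ k ∈ hK.toFinset, B0 (A.lin k v) (A.lin k u) := by
    intro v u
    simp [B, LinearMap.sum_apply]
  have hpos0 : ∀ v, v ≠ 0 → 0 < B0 v v := by
    intro v hv
    rw [hB0, real_inner_self_eq_norm_sq]
    have : T v ≠ 0 := fun h => hv (T.map_eq_zero_iff.1 h)
    positivity
  refine ⟨B, ⟨fun v u => ?_, fun v hv => ?_⟩, fun w hw v u => ?_⟩
  · rw [hB, hB]
    refine Finset.sum_congr rfl fun k _ => ?_
    rw [hB0, hB0, real_inner_comm]
  · rw [hB]
    refine Finset.sum_pos (fun k _ => hpos0 _ fun h => hv (A.lin_injective k v h)) ?_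
    rwa [Set.Finite.toFinset_nonempty]
  · rw [hB, hB]
    refine Finset.sum_equiv (Equiv.mulRight w) (fun k => ?_) (fun k _ => ?_)
    · simpa using hw k
    · rw [Equiv.coe_mulRight, A.lin_mul, A.lin_mul]

/-- An inner product which is invariant under two involutions whose product has finite order. -/
theorem exists_inner_pair [FiniteDimensional ℝ E] (r s : W) (hr : r * r = 1) (hs : s * s = 1)
    (hfin : IsOfFinOrder (r * s)) :
    ∃ B : E →ₗ[ℝ] E →ₗ[ℝ] ℝ, IsInner B ∧ (∀ v u, B (A.lin r v) (A.lin r u) = B v u) ∧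
      ∀ v u, B (A.lin s v) (A.lin s u) = B v u := by
  have hri : r⁻¹ = r := inv_eq_of_mul_eq_one_right hr
  have hsi : s⁻¹ = s := inv_eq_of_mul_eq_one_right hs
  let Z := Subgroup.zpowers (r * s)
  have hZ : (Z : Set W).Finite := hfin.finite_zpowers
  let K : Set W := (Z : Set W) ∪ {k | k * r ∈ Z}
  have hKf : K.Finite := by
    refine hZ.union ?_
    exact hZ.preimage (mul_left_injective r).injOn
  have hgen : r * s ∈ Z := Subgroup.mem_zpowers _
  have hconj : ∀ z ∈ Z, r * z * r ∈ Z := by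
    intro z hz
    obtain ⟨n, rfl⟩ := Subgroup.mem_zpowers_iff.1 hz
    have h1 : r * (r * s) ^ n * r = ((r * (r * s) * r)) ^ n := by
      have := conj_zpow (a := r) (b := r * s) (i := n)
      rw [hri] at this
      rw [this]
    rw [h1]
    refine Subgroup.zpow_mem _ ?_ n
    have h2 : r * (r * s) * r = (r * s)⁻¹ := by
      rw [mul_inv_rev, hri, hsi, ← mul_assoc, hr, one_mul]
    rw [h2]
    exact Z.inv_mem hgen
  have hmem : ∀ k, k ∈ K ↔ k ∈ Z ∨ k * r ∈ Z := fun k => Iff.rfl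
  have hinvr : ∀ k, k ∈ K ↔ k * r ∈ K := by
    intro k
    rw [hmem, hmem, mul_assoc, hr, mul_one]
    exact or_comm
  have hsZ : ∀ k, k * s ∈ Z ↔ k * r ∈ Z := by
    intro k
    have h3 : k * s = (k * r) * (r * s) := by
      rw [mul_assoc, ← mul_assoc r r s, hr, one_mul]
    rw [h3]
    exact Z.mul_mem_cancel_right hgen
  have hinvs : ∀ k, k ∈ K ↔ k * s ∈ K := by
    intro k
    rw [hmem, hmem, hsZ]
    have h4 : k * s * r ∈ Z ↔ k ∈ Z := by
      have h5 : k * s * r = k * (r * s)⁻¹ := by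
        rw [mul_inv_rev, hri, hsi, mul_assoc]
      rw [h5]
      exact Z.mul_mem_cancel_right (Z.inv_mem hgen)
    rw [h4]
    exact or_comm
  obtain ⟨B, hB, hinv⟩ := A.exists_inner K hKf ⟨1, Or.inl Z.one_mem⟩
  exact ⟨B, hB, hinv r hinvr, hinv s hinvs⟩

/-- The cubic equation of a product of two reflections. -/
theorem cubic {r s : W} {e e' : E} {φ φ' : E →ₗ[ℝ] ℝ} (hφ : φ e = 2) (hφ' : φ' e' = 2)
    (hr : ∀ v, A.lin r v = v - φ v • e) (hs : ∀ v, A.lin s v = v - φ' v • e') {c : ℝ}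
    (hc : φ e' * φ' e = c) (v : E) :
    A.lin ((r * s) ^ 3) v =
      (c - 1) • A.lin ((r * s) ^ 2) v - (c - 1) • A.lin (r * s) v + v := by
  have hG : ∀ v, A.lin (r * s) v = v - (φ v - φ' v * φ e') • e - φ' v • e' := by
    intro v
    rw [A.lin_mul, hs, hr, map_sub, map_smul, smul_eq_mul]
    module
  have hp : ∀ v, φ (A.lin (r * s) v) = φ e' * φ' v - φ v := by
    intro v
    rw [hG, map_sub, map_sub, map_smul, map_smul, hφ, smul_eq_mul, smul_eq_mul]
    ring
  have hq : ∀ v, φ' (A.lin (r * s) v) = (c - 1) * φ' v - φ' e * φ v := by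
    intro v
    rw [hG, map_sub, map_sub, map_smul, map_smul, hφ', smul_eq_mul, smul_eq_mul, ← hc]
    ring
  have h2 : A.lin ((r * s) ^ 2) v = A.lin (r * s) (A.lin (r * s) v) := by
    rw [sq, A.lin_mul]
  have h3 : A.lin ((r * s) ^ 3) v = A.lin (r * s) (A.lin (r * s) (A.lin (r * s) v)) := by
    rw [pow_succ, sq, A.lin_mul, A.lin_mul]
  rw [h3, h2]
  set x1 := A.lin (r * s) v with hx1
  set x2 := A.lin (r * s) x1 with hx2
  have e1 : x1 = v - (φ v - φ' v * φ e') • e - φ' v • e' := hG v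
  have e2 : x2 = x1 - (φ x1 - φ' x1 * φ e') • e - φ' x1 • e' := hG x1
  have e3 : A.lin (r * s) x2 = x2 - (φ x2 - φ' x2 * φ e') • e - φ' x2 • e' := hG x2
  have p1 : φ x1 = φ e' * φ' v - φ v := hp v
  have q1 : φ' x1 = (c - 1) * φ' v - φ' e * φ v := hq v
  have p2 : φ x2 = φ e' * φ' x1 - φ x1 := hp x1
  have q2 : φ' x2 = (c - 1) * φ' x1 - φ' e * φ x1 := hq x1
  clear_value x2
  clear_value x1
  rw [p1, q1] at e2
  rw [p2, q2, p1, q1] at e3
  rw [e3, e2, e1]
  have key1 : (φ v - φ' v * φ e') + ((φ e' * φ' v - φ v) -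
      ((c - 1) * φ' v - φ' e * φ v) * φ e') +
      ((φ e' * ((c - 1) * φ' v - φ' e * φ v) - (φ e' * φ' v - φ v)) -
        ((c - 1) * ((c - 1) * φ' v - φ' e * φ v) - φ' e * (φ e' * φ' v - φ v)) * φ e') =
      (c - 1) * ((φ e' * φ' v - φ v) - ((c - 1) * φ' v - φ' e * φ v) * φ e') := by
    linear_combination (φ' v * φ e' - φ v) * hc
  have key2 : φ' v + ((c - 1) * φ' v - φ' e * φ v) +
      ((c - 1) * ((c - 1) * φ' v - φ' e * φ v) - φ' e * (φ e' * φ' v - φ v)) =
      (c - 1) * ((c - 1) * φ' v - φ' e * φ v) := by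
    linear_combination (- φ' v) * hc
  have f1 := congrArg (fun t : ℝ => t • e) key1
  have f2 := congrArg (fun t : ℝ => t • e') key2
  beta_reduce at f1 f2
  linear_combination (norm := module) (-1 : ℝ) • f1 - (1 : ℝ) • f2

theorem cubic_pow {r s : W} {e e' : E} {φ φ' : E →ₗ[ℝ] ℝ} (hφ : φ e = 2) (hφ' : φ' e' = 2)
    (hr : ∀ v, A.lin r v = v - φ v • e) (hs : ∀ v, A.lin s v = v - φ' v • e') {c : ℝ}
    (hc : φ e' * φ' e = c) (v : E) (k : ℕ) :
    A.lin ((r * s) ^ (k + 3)) v =
      (c - 1) • A.lin ((r * s) ^ (k + 2)) v - (c - 1) • A.lin ((r * s) ^ (k + 1)) v +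
        A.lin ((r * s) ^ k) v := by
  have h := A.cubic hφ hφ' hr hs hc (A.lin ((r * s) ^ k) v)
  rw [← A.lin_mul, ← A.lin_mul, ← A.lin_mul, ← pow_add, ← pow_add, ← pow_succ'] at h
  rw [add_comm k 3, add_comm k 2]
  exact h

theorem eq_one_of_pow [T2Space X] [PreconnectedSpace X] {g : W} {x : X} (hx : g • x = x) (n : ℕ)
    (h : ∀ v, A.lin (g ^ n) v = v) : g ^ n = 1 := by
  refine A.eq_one_of_lin _ h x ?_
  clear h
  induction n with
  | zero => simp
  | succ n ih => rw [pow_succ, mul_smul, hx, ih]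

/-- **The crystallographic restriction.** -/
theorem orderOf_mul [T2Space X] [SecondCountableTopology X] [SimplyConnectedSpace X]
    [FiniteDimensional ℝ E] (r s : W) (hr : A.IsReflection r) (hs : A.IsReflection s) :
    orderOf (r * s) ∈ ({0, 1, 2, 3, 4, 6} : Set ℕ) := by
  by_cases hfin : IsOfFinOrder (r * s)
  swap
  · rw [orderOf_eq_zero hfin]
    simp
  obtain ⟨x, hxr, hxs⟩ := A.exists_common r s hr hs hfin
  have hx : (r * s) • x = x := by rw [mul_smul, hxs, hxr]
  obtain ⟨e, φ, he, hφ, hrφ, hint, -⟩ := A.exists_root r hr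
  obtain ⟨e', φ', he', hφ', hsφ, hint', -⟩ := A.exists_root s hs
  obtain ⟨m, hm⟩ := hint e' he'
  obtain ⟨n, hn⟩ := hint' e he
  obtain ⟨B, hB, hBr, hBs⟩ := A.exists_inner_pair r s hr.1 hs.1 hfin
  have hφB : ∀ v, φ v * B e e = 2 * B e v :=
    coroot hφ fun v w => by rw [← hrφ, ← hrφ, hBr]
  have hφB' : ∀ v, φ' v * B e' e' = 2 * B e' v :=
    coroot hφ' fun v w => by rw [← hsφ, ← hsφ, hBs]
  have he0 : e ≠ 0 := by
    rintro rfl
    rw [map_zero] at hφ
    norm_num at hφ
  have he0' : e' ≠ 0 := by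
    rintro rfl
    rw [map_zero] at hφ'
    norm_num at hφ'
  have hp := hB.pos e he0
  have hp' := hB.pos e' he0'
  have hprod : (φ e' * φ' e) * (B e e * B e' e') = 4 * B e e' ^ 2 := by
    have h1 := hφB e'
    have h2 := hφB' e
    rw [hB.symm e' e] at h2
    calc (φ e' * φ' e) * (B e e * B e' e') = (φ e' * B e e) * (φ' e * B e' e') := by ring
      _ = 4 * B e e' ^ 2 := by rw [h1, h2]; ring
  have hCS : B (B e e • e' - B e e' • e) (B e e • e' - B e e' • e) =
      B e e * (B e e * B e' e' - B e e' ^ 2) := by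
    simp only [map_sub, map_smul, LinearMap.sub_apply, LinearMap.smul_apply, smul_eq_mul]
    rw [hB.symm e' e]
    ring
  have hnn : 0 ≤ B (B e e • e' - B e e' • e) (B e e • e' - B e e' • e) := by
    by_cases h : B e e • e' - B e e' • e = 0
    · rw [h]
      simp
    · exact (hB.pos _ h).le
  have hD : 0 ≤ B e e * B e' e' - B e e' ^ 2 := by
    rw [hCS] at hnn
    exact nonneg_of_mul_nonneg_right hnn hp
  have hc0 : (0 : ℝ) ≤ (m * n : ℤ) := by
    have h1 : 0 ≤ (φ e' * φ' e) * (B e e * B e' e') := by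
      rw [hprod]
      positivity
    have h2 := nonneg_of_mul_nonneg_left h1 (mul_pos hp hp')
    push_cast
    rw [← hm, ← hn]
    exact h2
  have hc4 : ((m * n : ℤ) : ℝ) ≤ 4 := by
    push_cast
    rw [← hm, ← hn]
    have h1 : (φ e' * φ' e) * (B e e * B e' e') ≤ 4 * (B e e * B e' e') := by
      rw [hprod]
      linarith
    exact le_of_mul_le_mul_right h1 (mul_pos hp hp')
  have hc0' : 0 ≤ m * n := by exact_mod_cast hc0
  have hc4' : m * n ≤ 4 := by exact_mod_cast hc4
  have hc : φ e' * φ' e = ((m * n : ℤ) : ℝ) := by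
    rw [hm, hn]
    push_cast
    ring
  have hone : ∀ v, A.lin ((r * s) ^ 0) v = v := fun v => by rw [pow_zero, A.lin_one]
  have hcub := fun v k => A.cubic_pow hφ hφ' hrφ hsφ hc v k
  have hdvd : ∀ N : ℕ, (∀ v, A.lin ((r * s) ^ N) v = v) → orderOf (r * s) ∣ N := fun N hN =>
    orderOf_dvd_of_pow_eq_one (A.eq_one_of_pow hx N hN)
  have hmem : ∀ N : ℕ, orderOf (r * s) ∣ N → N ∈ ({1, 2, 3, 4, 6} : Set ℕ) →
      orderOf (r * s) ∈ ({0, 1, 2, 3, 4, 6} : Set ℕ) := by
    intro N h1 h2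
    have h3 : N ≤ 6 ∧ 0 < N ∧ N ≠ 5 := by
      rcases h2 with rfl | rfl | rfl | rfl | rfl <;> norm_num
    have h4 := Nat.le_of_dvd h3.2.1 h1
    generalize orderOf (r * s) = o at h1 h4 ⊢
    obtain ⟨h5, h6, h7⟩ := h3
    simp only [Set.mem_insert_iff, Set.mem_singleton_iff] at h2 ⊢
    have h8 : o ≤ 6 := h4.trans h5
    have h9 : o ≠ 5 := by
      rintro rfl
      omega
    omega
  generalize m * n = k at *
  interval_cases k
  · -- c = 0
    have h0 : B e e' = 0 := by
      rw [hc] at hprod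
      simp only [Int.cast_zero, zero_mul] at hprod
      have : B e e' ^ 2 = 0 := by linarith
      exact pow_eq_zero_iff two_ne_zero |>.1 this
    have h1 : φ e' = 0 := by
      have := hφB e'
      rw [h0, mul_zero] at this
      exact (mul_eq_zero.1 this).resolve_right hp.ne'
    have h2 : φ' e = 0 := by
      have := hφB' e
      rw [hB.symm e' e, h0, mul_zero] at this
      exact (mul_eq_zero.1 this).resolve_right hp'.ne'
    refine hmem 2 (hdvd 2 fun v => ?_) (by simp)
    rw [sq, A.lin_mul, A.lin_mul, A.lin_mul]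
    simp only [hsφ, hrφ, map_sub, map_smul, h1, h2, hφ, hφ', smul_eq_mul, mul_zero, sub_zero]
    module
  · refine hmem 3 (hdvd 3 fun v => ?_) (by simp)
    have h := hcub v 0
    rw [zero_add, hone] at h
    rw [h]
    push_cast
    module
  · refine hmem 4 (hdvd 4 fun v => ?_) (by simp)
    have h := hcub v 0
    have h' := hcub v 1
    rw [zero_add, hone] at h
    norm_num at h h'
    rw [h', h]
    module
  · refine hmem 6 (hdvd 6 fun v => ?_) (by simp)
    have h := hcub v 0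
    have h' := hcub v 1
    have h2 := hcub v 2
    have h3 := hcub v 3
    rw [zero_add, hone] at h
    norm_num at h h' h2 h3
    rw [h3, h2, h', h]
    module
  · -- c = 4
    have hD0 : B e e * B e' e' - B e e' ^ 2 = 0 := by
      rw [hc] at hprod
      push_cast at hprod
      linarith
    rw [hD0, mul_zero] at hCS
    have hx0 := hB.eq_zero hCS.le
    have h1 : e' = (B e e' / B e e) • e := by
      have h2 : B e e • e' = B e e' • e := sub_eq_zero.1 hx0
      rw [div_eq_inv_mul, mul_smul, ← h2, smul_smul, inv_mul_cancel₀ hp.ne', one_smul]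
    have ht0 : B e e' / B e e ≠ 0 := by
      intro h
      rw [h, zero_smul] at h1
      exact he0' h1
    have h2 := eq_of_proportional hB hφ hφB hφB' h1 ht0
    refine hmem 1 (hdvd 1 fun v => ?_) (by simp)
    rw [pow_one, A.lin_mul, hsφ, h2, ← hrφ, ← A.lin_mul, hr.1, A.lin_one]

end IntegralAffineAction

end Pool.Agent.H817.WG
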