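import Mathlib
import Pool.Agent.H817.WG.Order

/-!
# Groups generated by reflections with the same reflections in a linear representation

Let the finite group `W` be generated by a conjugation invariant set `R` of involutions, and let
`L` be a representation of `W` by isometries which maps `R` injectively to reflections. Then `L`
is faithful.
-/

open Set Module

namespace Pool.Agent.H817.WG

/-- A group with a set of reflections which acts by isometries, and a point off the mirrors. -/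
structure RG (W E : Type*) [Group W] [AddCommGroup E] [Module ℝ E] where
  L : W → E →ₗ[ℝ] E
  L_one : ∀ v, L 1 v = v
  L_mul : ∀ w w' v, L (w * w') v = L w (L w' v)
  R : Set W
  e : W → E
  φ : W → E →ₗ[ℝ] ℝ
  sq : ∀ r ∈ R, r * r = 1
  two : ∀ r ∈ R, φ r (e r) = 2
  refl : ∀ r ∈ R, ∀ v, L r v = v - φ r v • e r
  conj : ∀ r ∈ R, ∀ w, w * r * w⁻¹ ∈ R
  inj : ∀ r ∈ R, ∀ r' ∈ R, (∀ v, L r v = L r' v) → r = r'
  B : E →ₗ[ℝ] E →ₗ[ℝ] ℝ
  inner : IsInner B
  inv : ∀ w v u, B (L w v) (L w u) = B v u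
  v0 : E
  pos : ∀ r ∈ R, 0 < φ r v0

namespace RG

variable {W E : Type*} [Group W] [AddCommGroup E] [Module ℝ E] (G : RG W E)

theorem e_ne {r : W} (hr : r ∈ G.R) : G.e r ≠ 0 := by
  intro h
  have := G.two r hr
  rw [h, map_zero] at this
  norm_num at this

theorem L_inj (w : W) {v : E} (h : G.L w v = 0) : v = 0 := by
  have h1 := G.L_mul w⁻¹ w v
  rw [inv_mul_cancel, G.L_one, h, map_zero] at h1
  exact h1

theorem two_B {r : W} (hr : r ∈ G.R) (v : E) :
    G.φ r v * G.B (G.e r) (G.e r) = 2 * G.B (G.e r) v :=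
  coroot (G.two r hr) (fun v w => by rw [← G.refl r hr, ← G.refl r hr, G.inv]) v

theorem eq_of_mul {r r' : W} (hr : r ∈ G.R) (hr' : r' ∈ G.R) {κ : ℝ}
    (h : ∀ v, G.φ r' v = κ * G.φ r v) : r = r' := by
  have hp := G.inner.pos _ (G.e_ne hr)
  have hp' := G.inner.pos _ (G.e_ne hr')
  have hκ : κ ≠ 0 := by
    rintro rfl
    have := h (G.e r')
    rw [G.two r' hr', zero_mul] at this
    norm_num at this
  set t := κ * G.B (G.e r') (G.e r') / G.B (G.e r) (G.e r) with ht
  have ht0 : t ≠ 0 := div_ne_zero (mul_ne_zero hκ hp'.ne') hp.ne'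
  have h1 : ∀ v, G.B (G.e r' - t • G.e r) v = 0 := by
    intro v
    have h2 := G.two_B hr v
    have h3 := G.two_B hr' v
    rw [h v] at h3
    rw [map_sub, map_smul, LinearMap.sub_apply, LinearMap.smul_apply, smul_eq_mul]
    have h4 : G.B (G.e r') v = κ * G.φ r v * G.B (G.e r') (G.e r') / 2 := by linarith
    have h5 : G.B (G.e r) v = G.φ r v * G.B (G.e r) (G.e r) / 2 := by linarith
    rw [h4, h5, ht]
    field_simp
    ring
  have h6 : G.e r' = t • G.e r := sub_eq_zero.1 (G.inner.eq_zero (h1 _).le)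
  refine G.inj r hr r' hr' fun v => ?_
  rw [G.refl r hr, G.refl r' hr', eq_of_proportional G.inner (G.two r hr)
    (G.two_B hr) (G.two_B hr') h6 ht0 v]

theorem eq_of_ker {r r' : W} (hr : r ∈ G.R) (hr' : r' ∈ G.R)
    (h : ∀ v, G.φ r v = 0 → G.φ r' v = 0) : r = r' := by
  refine G.eq_of_mul hr hr' (κ := G.φ r' (G.e r) / 2) fun v => ?_
  have h1 := h (v - (G.φ r v / 2) • G.e r) (by
    rw [map_sub, map_smul, G.two r hr, smul_eq_mul]
    ring)
  rw [map_sub, map_smul, smul_eq_mul] at h1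
  linarith

/-- Transport of roots. -/
theorem transport {r : W} (hr : r ∈ G.R) (w : W) :
    ∃ κ : ℝ, κ ≠ 0 ∧ ∀ v, G.φ (w * r * w⁻¹) (G.L w v) = κ * G.φ r v := by
  have hr' := G.conj r hr w
  have key : ∀ v, G.φ (w * r * w⁻¹) (G.L w v) • G.e (w * r * w⁻¹) =
      G.φ r v • G.L w (G.e r) := by
    intro v
    have h1 : G.L (w * r * w⁻¹) (G.L w v) = G.L w (G.L r v) := by
      rw [← G.L_mul, ← G.L_mul]
      congr 2
      group
    rw [G.refl _ hr', G.refl r hr, map_sub, map_smul] at h1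
    exact sub_right_injective h1
  have h2 := key (G.e r)
  rw [G.two r hr] at h2
  set κ := G.φ (w * r * w⁻¹) (G.L w (G.e r)) / 2 with hκ
  have h3 : G.L w (G.e r) = κ • G.e (w * r * w⁻¹) := by
    have h4 : (2 : ℝ) • G.L w (G.e r) = (2 : ℝ) • (κ • G.e (w * r * w⁻¹)) := by
      rw [← h2, smul_smul, hκ]
      congr 1
      ring
    exact smul_right_injective E (two_ne_zero) h4
  refine ⟨κ, ?_, fun v => ?_⟩
  · intro h0
    rw [h0, zero_smul] at h3
    exact G.e_ne hr (G.L_inj w h3)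
  · have h5 := key v
    rw [h3, smul_smul] at h5
    have h6 := smul_left_injective ℝ (G.e_ne hr') h5
    rw [mul_comm κ]
    exact h6

theorem ne_zero_v0 {r : W} (hr : r ∈ G.R) (w : W) : G.φ r (G.L w G.v0) ≠ 0 := by
  have hr' := G.conj r hr w⁻¹
  obtain ⟨κ, hκ, h⟩ := G.transport hr' w
  have h1 : w * (w⁻¹ * r * w⁻¹⁻¹) * w⁻¹ = r := by group
  rw [h1] at h
  rw [h]
  exact mul_ne_zero hκ (G.pos _ hr').ne'

/-- The simple reflections. -/
theorem exists_simple (hR : G.R.Finite) : ∃ S : Set W, S ⊆ G.R ∧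
    (∀ v, (∀ s ∈ S, 0 < G.φ s v) → ∀ r ∈ G.R, 0 < G.φ r v) ∧
    ∀ s ∈ S, ∃ y, G.φ s y = 0 ∧ ∀ r ∈ G.R, r ≠ s → 0 < G.φ r y := by
  classical
  let Good : Set W → Prop := fun S => S ⊆ G.R ∧ ∀ v, (∀ s ∈ S, 0 < G.φ s v) → ∀ r ∈ G.R, 0 < G.φ r v
  have hex : ∃ n, ∃ S, Good S ∧ S.ncard = n := ⟨_, G.R, ⟨Subset.refl _, fun v h => h⟩, rfl⟩
  obtain ⟨S, hS, hn⟩ := Nat.find_spec hex
  have hmin := fun m (hm : m < Nat.find hex) => Nat.find_min hex hm
  have hSf : S.Finite := hR.subset hS.1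
  refine ⟨S, hS.1, hS.2, fun s hs => ?_⟩
  have hsR := hS.1 hs
  have hbad : ¬ Good (S \ {s}) := by
    intro hg
    refine hmin _ ?_ ⟨_, hg, rfl⟩
    rw [← hn]
    exact Set.ncard_sdiff_singleton_lt_of_mem hs hSf
  have hbad' : ∃ y, (∀ s' ∈ S \ {s}, 0 < G.φ s' y) ∧ ∃ r ∈ G.R, G.φ r y ≤ 0 := by
    by_contra hcon
    push Not at hcon
    exact hbad ⟨fun x hx => hS.1 hx.1, hcon⟩
  obtain ⟨y, hy, r1, hr1, hr1y⟩ := hbad'
  have hsy : G.φ s y ≤ 0 := by
    by_contra hc
    push Not at hc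
    have := hS.2 y (fun s' hs' => by
      by_cases h : s' = s
      · rw [h]; exact hc
      · exact hy s' ⟨hs', h⟩) r1 hr1
    linarith
  have hp0 := G.pos s hsR
  -- the point of the wall
  let t := G.φ s G.v0 / (G.φ s G.v0 - G.φ s y)
  have hden : 0 < G.φ s G.v0 - G.φ s y := by linarith
  have ht0 : 0 < t := div_pos hp0 hden
  have ht1 : t ≤ 1 := by
    rw [div_le_one hden]
    linarith
  let z := (1 - t) • G.v0 + t • y
  have hz : ∀ r, G.φ r z = (1 - t) * G.φ r G.v0 + t * G.φ r y := by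
    intro r
    simp only [z, map_add, map_smul, smul_eq_mul]
  have hsz : G.φ s z = 0 := by
    rw [hz]
    simp only [t]
    field_simp
    ring
  have hSz : ∀ s' ∈ S, s' ≠ s → 0 < G.φ s' z := by
    intro s' hs' hne
    rw [hz]
    have h1 := hy s' ⟨hs', hne⟩
    have h2 := G.pos s' (hS.1 hs')
    have h3 : 0 ≤ (1 - t) * G.φ s' G.v0 := mul_nonneg (by linarith) h2.le
    have h4 : 0 < t * G.φ s' y := mul_pos ht0 h1
    linarith
  refine ⟨z, hsz, fun r hr hrs => ?_⟩
  -- nearby points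
  have hnear : ∀ u, 0 < G.φ s u → ∃ δ : ℝ, 0 < δ ∧ ∀ ε, 0 < ε → ε ≤ δ → 0 < G.φ r (z + ε • u) := by
    intro u hu
    have h1 : ∃ δ : ℝ, 0 < δ ∧ ∀ s' ∈ S, s' ≠ s → ∀ ε, 0 < ε → ε ≤ δ → 0 < G.φ s' (z + ε • u) := by
      let f : W → ℝ := fun s' => if s' = s then 1 else G.φ s' z / (|G.φ s' u| + 1)
      have hf : ∀ s' ∈ S, 0 < f s' := by
        intro s' hs'
        simp only [f]
        split_ifs with h
        · norm_num
        · exact div_pos (hSz s' hs' h) (by positivity)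
      obtain ⟨s1, hs1, hmin1⟩ := Set.exists_min_image S f hSf ⟨s, hs⟩
      refine ⟨f s1 / 2, half_pos (hf s1 hs1), fun s' hs' hne ε hε hεδ => ?_⟩
      have h2 : ε < f s' := by
        have := hmin1 s' hs'
        have := hf s1 hs1
        linarith
      simp only [f] at h2
      rw [if_neg hne, lt_div_iff₀ (by positivity)] at h2
      rw [map_add, map_smul, smul_eq_mul]
      have h3 : ε * (-G.φ s' u) ≤ ε * |G.φ s' u| :=
        mul_le_mul_of_nonneg_left (neg_le_abs _) hε.le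
      nlinarith
    obtain ⟨δ, hδ, h2⟩ := h1
    refine ⟨δ, hδ, fun ε hε hεδ => hS.2 _ (fun s' hs' => ?_) r hr⟩
    by_cases h : s' = s
    · rw [h, map_add, map_smul, hsz, smul_eq_mul, zero_add]
      exact mul_pos hε hu
    · exact h2 s' hs' h ε hε hεδ
  have hge : 0 ≤ G.φ r z := by
    by_contra hc
    push Not at hc
    obtain ⟨δ, hδ, h⟩ := hnear G.v0 hp0
    have hr0 := G.pos r hr
    let ε := min δ (-(G.φ r z) / (2 * G.φ r G.v0))
    have hε : 0 < ε := lt_min hδ (div_pos (by linarith) (by linarith))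
    have h1 := h ε hε (min_le_left _ _)
    rw [map_add, map_smul, smul_eq_mul] at h1
    have h2 : ε * (2 * G.φ r G.v0) ≤ -(G.φ r z) := by
      have := min_le_right δ (-(G.φ r z) / (2 * G.φ r G.v0))
      rwa [le_div_iff₀ (by linarith)] at this
    nlinarith
  refine lt_of_le_of_ne hge fun h0 => hrs ?_
  -- if the functional vanishes at `z`, then the mirrors agree
  have hpos' : ∀ u, 0 < G.φ s u → 0 < G.φ r u := by
    intro u hu
    obtain ⟨δ, hδ, h⟩ := hnear u hu
    have h1 := h δ hδ le_rfl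
    rw [map_add, ← h0, zero_add, map_smul, smul_eq_mul] at h1
    exact (mul_pos_iff_of_pos_left hδ).1 h1
  refine (G.eq_of_ker hsR hr fun u hu => ?_).symm
  by_contra hne
  have hr0 := G.pos r hr
  have h1 := hpos' (G.v0 + (-(G.φ r G.v0) / G.φ r u) • u) (by
    rw [map_add, map_smul, hu, smul_zero, add_zero]
    exact hp0)
  rw [map_add, map_smul, smul_eq_mul, div_mul_cancel₀ _ hne] at h1
  linarith

/-- A simple reflection only changes the sign of its own root. -/
theorem pos_of_ne {s : W} (hs : s ∈ G.R) {y : E} (hy : G.φ s y = 0)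
    (hy' : ∀ r ∈ G.R, r ≠ s → 0 < G.φ r y) {r : W} (hr : r ∈ G.R) (hrs : r ≠ s) :
    0 < G.φ r (G.L s G.v0) := by
  have hr' := G.conj r hr s⁻¹
  obtain ⟨κ, -, h⟩ := G.transport hr' s
  have h1 : s * (s⁻¹ * r * s⁻¹⁻¹) * s⁻¹ = r := by group
  rw [h1] at h
  have hne : s⁻¹ * r * s⁻¹⁻¹ ≠ s := by
    intro hc
    apply hrs
    rw [← h1, hc]
    group
  have h2 := h y
  rw [G.refl s hs, hy, zero_smul, sub_zero] at h2
  have h3 := hy' r hr hrs
  have h4 := hy' _ hr' hne
  rw [h2] at h3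
  have hκ : 0 < κ := (pos_iff_pos_of_mul_pos h3).2 h4
  rw [h]
  exact mul_pos hκ (G.pos _ hr')

/-- The simple reflections generate. -/
theorem mem_closure [Finite W] {S : Set W} (hSR : S ⊆ G.R)
    (hS : ∀ v, (∀ s ∈ S, 0 < G.φ s v) → ∀ r ∈ G.R, 0 < G.φ r v) {r : W} (hr : r ∈ G.R) :
    r ∈ Subgroup.closure S := by
  obtain ⟨z, hz, hz'⟩ := Module.Dual.exists_forall_mem_ne_zero_of_forall_exists
    (ι := {r' : W // r' ∈ G.R ∧ r' ≠ r}) (LinearMap.ker (G.φ r)) (fun r' => G.φ r'.1) (by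
      rintro ⟨r', hr', hne⟩
      by_contra hcon
      push Not at hcon
      exact hne (G.eq_of_ker hr hr' fun v hv => hcon v hv).symm)
  have hz0 : G.φ r z = 0 := hz
  -- the closest point of the orbit
  let f : Subgroup.closure S → ℝ := fun w => G.B (G.L w z - G.v0) (G.L w z - G.v0)
  obtain ⟨⟨w, hw⟩, hmin⟩ := Finite.exists_min f
  have hge : ∀ s ∈ S, 0 ≤ G.φ s (G.L w z) := by
    intro s hs
    by_contra hc
    push Not at hc
    have hsR := hSR hs
    have h1 := hmin ⟨s * w, Subgroup.mul_mem _ (Subgroup.subset_closure hs) hw⟩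
    simp only [f] at h1
    rw [G.L_mul] at h1
    set u := G.L w z with hu
    have h2 : G.B (G.L s u) (G.L s u) = G.B u u := G.inv s u u
    have h3 : G.B (G.L s u - G.v0) (G.L s u - G.v0) =
        G.B (u - G.v0) (u - G.v0) + 2 * (G.φ s u * G.B (G.e s) G.v0) := by
      have h4 : G.B (G.L s u - G.v0) (G.L s u - G.v0) =
          G.B (G.L s u) (G.L s u) - 2 * G.B (G.L s u) G.v0 + G.B G.v0 G.v0 := by
        simp only [map_sub, LinearMap.sub_apply]
        rw [G.inner.symm G.v0 (G.L s u)]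
        ring
      have h5 : G.B (u - G.v0) (u - G.v0) = G.B u u - 2 * G.B u G.v0 + G.B G.v0 G.v0 := by
        simp only [map_sub, LinearMap.sub_apply]
        rw [G.inner.symm G.v0 u]
        ring
      rw [h4, h5, h2, G.refl s hsR]
      simp only [map_sub, map_smul, LinearMap.sub_apply, LinearMap.smul_apply, smul_eq_mul]
      ring
    rw [h3] at h1
    have h6 := G.two_B hsR G.v0
    have h7 := G.inner.pos _ (G.e_ne hsR)
    have h8 := G.pos s hsR
    have h9 : 0 < G.B (G.e s) G.v0 := by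
      have := mul_pos h8 h7
      linarith
    have h10 : G.φ s u * G.B (G.e s) G.v0 < 0 := mul_neg_of_neg_of_pos hc h9
    linarith
  -- the only mirror through `L w z`
  have hr' := G.conj r hr w
  obtain ⟨κ, hκ, hκ'⟩ := G.transport hr w
  have h1 : G.φ (w * r * w⁻¹) (G.L w z) = 0 := by rw [hκ', hz0, mul_zero]
  have h2 : ∃ s ∈ S, G.φ s (G.L w z) = 0 := by
    by_contra hcon
    push Not at hcon
    have := hS (G.L w z) (fun s hs => lt_of_le_of_ne (hge s hs) (Ne.symm (hcon s hs))) _ hr'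
    linarith
  obtain ⟨s, hs, hs0⟩ := h2
  have h3 : w⁻¹ * s * w⁻¹⁻¹ = r := by
    by_contra hne
    have hc := G.conj s (hSR hs) w⁻¹
    obtain ⟨κ', hκ0, h4⟩ := G.transport hc w
    have h5 : w * (w⁻¹ * s * w⁻¹⁻¹) * w⁻¹ = s := by group
    rw [h5] at h4
    have h6 := hz' ⟨_, hc, hne⟩
    rw [h4] at hs0
    rcases mul_eq_zero.1 hs0 with h7 | h7
    · exact hκ0 h7
    · exact h6 h7
  rw [← h3, inv_inv]
  exact Subgroup.mul_mem _ (Subgroup.mul_mem _ (Subgroup.inv_mem _ hw)
    (Subgroup.subset_closure hs)) hw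

/-- The exchange condition. -/
theorem exchange {S : Set W} (hSR : S ⊆ G.R)
    (hS : ∀ s ∈ S, ∃ y, G.φ s y = 0 ∧ ∀ r ∈ G.R, r ≠ s → 0 < G.φ r y) {s : W} (hs : s ∈ S)
    (l : List W) (hl : ∀ t ∈ l, t ∈ S) (hneg : G.φ s (G.L l.prod⁻¹ G.v0) < 0) :
    ∃ m : List W, (∀ t ∈ m, t ∈ S) ∧ m.length + 1 = l.length ∧ m.prod = l.prod * s := by
  induction l with
  | nil =>
    rw [List.prod_nil, inv_one, G.L_one] at hneg
    have := G.pos s (hSR hs)
    linarith
  | cons t l ih =>
    have ht : t ∈ S := hl t (by simp)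
    have hl' : ∀ t ∈ l, t ∈ S := fun t' ht' => hl t' (by simp [ht'])
    have htt := G.sq t (hSR ht)
    have hti : t⁻¹ = t := inv_eq_of_mul_eq_one_right htt
    rcases lt_or_gt_of_ne (G.ne_zero_v0 (hSR hs) l.prod⁻¹) with h | h
    · obtain ⟨m, hm, hlen, hprod⟩ := ih hl' h
      refine ⟨t :: m, ?_, ?_, ?_⟩
      · intro t' ht'
        rcases List.mem_cons.1 ht' with h1 | h1
        · rw [h1]; exact ht
        · exact hm t' h1
      · simp [hlen]
      · rw [List.prod_cons, List.prod_cons, hprod, mul_assoc]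
    · -- then `u s u⁻¹ = t`
      set u := l.prod with hu
      have hr := G.conj s (hSR hs) u
      obtain ⟨κ, hκ0, hκ⟩ := G.transport hr u⁻¹
      have h1 : u⁻¹ * (u * s * u⁻¹) * u⁻¹⁻¹ = s := by group
      rw [h1] at hκ
      have hκpos : 0 < κ := by
        rw [hκ] at h
        exact (pos_iff_pos_of_mul_pos h).2 (G.pos _ hr)
      have hut : u * s * u⁻¹ = t := by
        by_contra hne
        obtain ⟨y, hy, hy'⟩ := hS t ht
        have h2 := G.pos_of_ne (hSR ht) hy hy' hr hne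
        rw [List.prod_cons, mul_inv_rev, G.L_mul, hti, hκ] at hneg
        have := mul_pos hκpos h2
        linarith
      refine ⟨l, hl', by simp, ?_⟩
      rw [List.prod_cons, ← hu, ← hut]
      have h3 : u * s * u⁻¹ * u * s = u * (s * s) := by group
      rw [h3, G.sq s (hSR hs), mul_one]

/-- **Faithfulness.** -/
theorem faithful [Finite W] (hgen : Subgroup.closure G.R = ⊤) {w : W} (hw : ∀ v, G.L w v = v) :
    w = 1 := by
  obtain ⟨S, hSR, hS1, hS2⟩ := G.exists_simple (Set.toFinite _)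
  have hSgen : Subgroup.closure S = ⊤ := by
    rw [eq_top_iff, ← hgen, Subgroup.closure_le]
    intro r hr
    exact G.mem_closure hSR hS1 hr
  have hex : ∀ w : W, ∃ l : List W, (∀ t ∈ l, t ∈ S) ∧ l.prod = w := by
    intro w
    have h1 : w ∈ Subgroup.closure S := by rw [hSgen]; trivial
    have h1' : w ∈ (Subgroup.closure S).toSubmonoid := h1
    rw [Subgroup.closure_toSubmonoid] at h1'
    obtain ⟨l, hl, hprod⟩ := Submonoid.exists_list_of_mem_closure h1'
    refine ⟨l, fun t ht => ?_, hprod⟩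
    rcases hl t ht with h2 | h2
    · exact h2
    · have h2' : t⁻¹ ∈ S := h2
      have h3 := G.sq _ (hSR h2')
      have h4 : t * t = 1 := by
        have : (t * t)⁻¹ = 1 := by rw [mul_inv_rev]; exact h3
        exact inv_eq_one.1 this
      have h5 : t⁻¹ = t := inv_eq_of_mul_eq_one_right h4
      rwa [h5] at h2'
  have hex' : ∃ n, ∃ l : List W, (∀ t ∈ l, t ∈ S) ∧ l.prod = w ∧ l.length = n := by
    obtain ⟨l, hl, hp⟩ := hex w
    exact ⟨_, l, hl, hp, rfl⟩
  classical
  obtain ⟨l, hl, hp, hlen⟩ := Nat.find_spec hex'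
  have hmin := fun m (hm : m < Nat.find hex') => Nat.find_min hex' hm
  rcases List.eq_nil_or_concat' l with rfl | ⟨l', s, rfl⟩
  · rw [← hp, List.prod_nil]
  · exfalso
    have hs : s ∈ S := hl s (by simp)
    have hss := G.sq s (hSR hs)
    have hsi : s⁻¹ = s := inv_eq_of_mul_eq_one_right hss
    have hl' : ∀ t ∈ l', t ∈ S := fun t ht => hl t (by simp [ht])
    rw [List.prod_append, List.prod_singleton] at hp
    have h1 : l'.prod⁻¹ = s * w⁻¹ := by
      rw [← hp, mul_inv_rev, ← mul_assoc, mul_inv_cancel, one_mul]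
    have hwinv : ∀ v, G.L w⁻¹ v = v := by
      intro v
      have h2 := G.L_mul w⁻¹ w v
      rw [inv_mul_cancel, G.L_one, hw] at h2
      exact h2.symm
    have h2 : G.φ s (G.L l'.prod⁻¹ G.v0) < 0 := by
      rw [h1, G.L_mul, hwinv, G.refl s (hSR hs), map_sub, map_smul, G.two s (hSR hs), smul_eq_mul]
      have := G.pos s (hSR hs)
      linarith
    obtain ⟨m, hm, hmlen, hmprod⟩ := G.exchange hSR hS2 hs l' hl' h2
    refine hmin m.length ?_ ⟨m, hm, ?_, rfl⟩
    · rw [← hlen]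
      simp
      omega
    · rw [hmprod, hp]

end RG

end Pool.Agent.H817.WG
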