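import Mathlib
import Pool.Agent.H817.WG.Faithful

/-!
# The root system of a finite reflection group on an integral affine manifold
-/

open Set Module

namespace Pool.Agent.H817.WG

/-- A finite set of vectors with functionals, as in the definition of a root system. -/
structure Roots (E : Type*) [AddCommGroup E] [Module ℝ E] where
  S : Set E
  fin : S.Finite
  B : E →ₗ[ℝ] E →ₗ[ℝ] ℝ
  inner : IsInner B
  ne : ∀ x ∈ S, x ≠ 0
  refl : ∀ x ∈ S, ∀ y ∈ S, y - (2 * B x y / B x x) • x ∈ S

namespace Roots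

variable {E : Type*} [AddCommGroup E] [Module ℝ E] (Q : Roots E)

/-- The coroot of `x`. -/
noncomputable def co (x : E) : Dual ℝ E := (2 / Q.B x x) • Q.B x

theorem co_apply (x v : E) : Q.co x v = 2 * Q.B x v / Q.B x x := by
  unfold co
  rw [LinearMap.smul_apply, smul_eq_mul]
  ring

theorem co_self {x : E} (hx : x ∈ Q.S) : Q.co x x = 2 := by
  rw [co_apply]
  have := Q.inner.pos x (Q.ne x hx)
  field_simp

theorem co_inj {x y : E} (hx : x ∈ Q.S) (hy : y ∈ Q.S) (h : Q.co x = Q.co y) : x = y := by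
  have hpx := Q.inner.pos x (Q.ne x hx)
  have hpy := Q.inner.pos y (Q.ne y hy)
  set t := Q.B x x / Q.B y y with ht
  have htpos : 0 < t := div_pos hpx hpy
  have h1 : ∀ v, Q.B (x - t • y) v = 0 := by
    intro v
    have h2 := congrArg (fun f : Dual ℝ E => f v) h
    simp only [co_apply] at h2
    rw [map_sub, map_smul, LinearMap.sub_apply, LinearMap.smul_apply, smul_eq_mul, ht]
    field_simp at h2 ⊢
    linarith
  have h2 : x = t • y := sub_eq_zero.1 (Q.inner.eq_zero (h1 _).le)
  have h3 : Q.B x x = t * t * Q.B y y := by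
    rw [h2]
    simp only [map_smul, LinearMap.smul_apply, smul_eq_mul]
    ring
  have h4 : Q.B x x = t * Q.B y y := by
    rw [ht]
    field_simp
  have h5 : t = 1 := by
    have h6 : t * Q.B y y * (t - 1) = 0 := by linarith
    rcases mul_eq_zero.1 h6 with h7 | h7
    · exact absurd h7 (mul_pos htpos hpy).ne'
    · linarith
  rw [h2, h5, one_smul]

theorem co_refl {x y : E} (hx : x ∈ Q.S) :
    Q.co (y - (2 * Q.B x y / Q.B x x) • x) = Q.co y - Q.co y x • Q.co x := by
  have hpx := (Q.inner.pos x (Q.ne x hx)).ne'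
  have h1 : Q.B (y - (2 * Q.B x y / Q.B x x) • x) (y - (2 * Q.B x y / Q.B x x) • x) = Q.B y y := by
    simp only [map_sub, map_smul, LinearMap.sub_apply, LinearMap.smul_apply, smul_eq_mul]
    rw [Q.inner.symm y x]
    field_simp
    ring
  apply LinearMap.ext
  intro v
  rw [LinearMap.sub_apply, LinearMap.smul_apply, smul_eq_mul, co_apply, co_apply, co_apply,
    co_apply, h1]
  simp only [map_sub, map_smul, LinearMap.sub_apply, LinearMap.smul_apply, smul_eq_mul]
  rw [Q.inner.symm y x]
  by_cases hy : Q.B y y = 0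
  · rw [hy]
    simp
  · field_simp

/-- The root pairing. -/
noncomputable def pairing [FiniteDimensional ℝ E] : RootPairing Q.S ℝ E (Dual ℝ E) :=
  haveI : Finite Q.S := Q.fin
  RootPairing.mk' (Dual.eval ℝ E) (Function.Embedding.subtype _)
    ⟨fun x => Q.co x, fun x y h => Subtype.ext (Q.co_inj x.2 y.2 h)⟩
    (fun x => Q.co_self x.2)
    (by
      rintro x _ ⟨y, rfl⟩
      refine ⟨⟨_, Q.refl x x.2 y y.2⟩, ?_⟩
      show (y : E) - (2 * Q.B x y / Q.B x x) • (x : E) = (y : E) - (Q.co x y) • (x : E)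
      rw [co_apply])
    (by
      rintro x _ ⟨y, rfl⟩
      refine ⟨⟨_, Q.refl x x.2 y y.2⟩, ?_⟩
      show Q.co ((y : E) - (2 * Q.B x y / Q.B x x) • (x : E)) =
        Q.co y - (Q.co y x) • Q.co x
      exact Q.co_refl x.2)

theorem pairing_root [FiniteDimensional ℝ E] (x : Q.S) : Q.pairing.root x = x := rfl

theorem pairing_coroot [FiniteDimensional ℝ E] (x : Q.S) : Q.pairing.coroot x = Q.co x := rfl

theorem pairing_reflection [FiniteDimensional ℝ E] (x : Q.S) (v : E) :
    Q.pairing.reflection x v = v - Q.co x v • (x : E) := rfl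

end Roots

end Pool.Agent.H817.WG
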