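import Mathlib
import Pool.Agent.H817.WG.Weyl

/-!
# Finite reflection groups on simply connected integral affine manifolds are Weyl groups
-/

open Set Module

namespace Pool.Agent.H817.WG

namespace IntegralAffineAction

variable {W X E : Type*} [Group W] [TopologicalSpace X] [MulAction W X]
  [NormedAddCommGroup E] [NormedSpace ℝ E] (A : IntegralAffineAction W X E)

/-- A reflection, from a root. -/
theorem isReflection_of_root {r : W} (hrr : r * r = 1) (hx : ∃ x : X, r • x = x) {e : E}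
    {φ : E →ₗ[ℝ] ℝ} (hφ : φ e = 2) (h : ∀ v, A.lin r v = v - φ v • e) : A.IsReflection r := by
  refine ⟨hrr, hx, ?_⟩
  have he : e ≠ 0 := by
    rintro rfl
    rw [map_zero] at hφ
    norm_num at hφ
  have h1 : LinearMap.range (A.lin r - LinearMap.id) = Submodule.span ℝ {e} := by
    apply le_antisymm
    · rintro _ ⟨v, rfl⟩
      rw [LinearMap.sub_apply, h, LinearMap.id_apply]
      have : v - φ v • e - v = (-φ v) • e := by module
      rw [this]
      exact Submodule.smul_mem _ _ (Submodule.mem_span_singleton_self e)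
    · rw [Submodule.span_singleton_le_iff_mem]
      refine ⟨(-1 / 2 : ℝ) • e, ?_⟩
      rw [LinearMap.sub_apply, h, LinearMap.id_apply, map_smul, hφ]
      module
  rw [h1]
  exact finrank_span_singleton he

theorem isReflection_conj {r : W} (hr : A.IsReflection r) (w : W) :
    A.IsReflection (w * r * w⁻¹) := by
  obtain ⟨e, φ, -, hφ, h, -, -⟩ := A.exists_root r hr
  obtain ⟨x, hx⟩ := hr.2.1
  refine A.isReflection_of_root (e := A.lin w e) (φ := φ ∘ₗ A.lin w⁻¹) ?_ ⟨w • x, ?_⟩ ?_ ?_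
  · have : w * r * w⁻¹ * (w * r * w⁻¹) = w * (r * r) * w⁻¹ := by group
    rw [this, hr.1]
    group
  · rw [← mul_smul, inv_mul_cancel_right, mul_smul, hx]
  · rw [LinearMap.comp_apply, ← A.lin_mul, inv_mul_cancel, A.lin_one]
    exact hφ
  · intro v
    rw [A.lin_mul, A.lin_mul, h, map_sub, map_smul, ← A.lin_mul, mul_inv_cancel, A.lin_one,
      LinearMap.comp_apply]

/-- In a finite group a reflection is determined by its differential. -/
theorem eq_of_lin [Finite W] [T2Space X] [SecondCountableTopology X] [SimplyConnectedSpace X]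
    [FiniteDimensional ℝ E] {r r' : W} (hr : A.IsReflection r) (hr' : A.IsReflection r')
    (h : ∀ v, A.lin r v = A.lin r' v) : r = r' := by
  obtain ⟨x, hx, hx'⟩ := A.exists_common r r' hr hr' (isOfFinOrder_of_finite _)
  have h1 : r⁻¹ * r' = 1 := by
    refine A.eq_one_of_lin _ (fun v => ?_) x ?_
    · rw [A.lin_mul, ← h, ← A.lin_mul, inv_mul_cancel, A.lin_one]
    · rw [mul_smul, hx', inv_smul_eq_iff, hx]
  exact (inv_mul_eq_one.1 h1)

/-- The reflection data of a finite group. -/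
theorem exists_RG [Finite W] [T2Space X] [SecondCountableTopology X] [SimplyConnectedSpace X]
    [FiniteDimensional ℝ E] : ∃ G : RG W E, (∀ w v, G.L w v = A.lin w v) ∧
      G.R = {r | A.IsReflection r} ∧ ∀ r ∈ G.R, G.e r ∈ A.lattice ∧
        (∀ v ∈ A.lattice, ∃ n : ℤ, G.φ r v = n) ∧
        ∀ t : ℝ, t • G.e r ∈ A.lattice → ∃ n : ℤ, t = n := by
  classical
  have h0 : ∀ r : W, ∃ (e : E) (φ : E →ₗ[ℝ] ℝ), A.IsReflection r →
      e ∈ A.lattice ∧ φ e = 2 ∧ (∀ v, A.lin r v = v - φ v • e) ∧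
      (∀ v ∈ A.lattice, ∃ n : ℤ, φ v = n) ∧ ∀ t : ℝ, t • e ∈ A.lattice → ∃ n : ℤ, t = n := by
    intro r
    by_cases hr : A.IsReflection r
    · obtain ⟨e, φ, h⟩ := A.exists_root r hr
      exact ⟨e, φ, fun _ => h⟩
    · exact ⟨0, 0, fun h => absurd h hr⟩
  choose e0 φ0 h0 using h0
  obtain ⟨v0, hv0⟩ := Module.Dual.exists_forall_ne_zero_of_forall_exists
    (ι := {r : W // A.IsReflection r}) (fun r => (φ0 r.1 : Dual ℝ E)) (by
      rintro ⟨r, hr⟩
      refine ⟨e0 r, ?_⟩
      rw [(h0 r hr).2.1]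
      norm_num)
  obtain ⟨B, hB, hinv⟩ := A.exists_inner (Set.univ : Set W) (Set.toFinite _) ⟨1, trivial⟩
  let σ : W → ℝ := fun r => if 0 < φ0 r v0 then 1 else -1
  have hσ : ∀ r, σ r * σ r = 1 := by
    intro r
    simp only [σ]
    split_ifs <;> norm_num
  have hσ' : ∀ r, ∃ n : ℤ, σ r = n := by
    intro r
    simp only [σ]
    split_ifs
    · exact ⟨1, by norm_num⟩
    · exact ⟨-1, by norm_num⟩
  have hσc : ∀ r, σ r = 1 ∨ σ r = -1 := by
    intro r
    simp only [σ]
    split_ifs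
    · exact Or.inl rfl
    · exact Or.inr rfl
  refine ⟨{
    L := A.lin
    L_one := A.lin_one
    L_mul := A.lin_mul
    R := {r | A.IsReflection r}
    e := fun r => σ r • e0 r
    φ := fun r => σ r • φ0 r
    sq := fun r hr => hr.1
    two := ?_
    refl := ?_
    conj := fun r hr w => A.isReflection_conj hr w
    inj := fun r hr r' hr' h => A.eq_of_lin hr hr' h
    B := B
    inner := hB
    inv := fun w v u => hinv w (by simp) v u
    v0 := v0
    pos := ?_ }, fun w v => rfl, rfl, ?_⟩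
  · intro r hr
    rw [LinearMap.smul_apply, map_smul, (h0 r hr).2.1, smul_eq_mul, smul_eq_mul, ← mul_assoc, hσ]
    norm_num
  · intro r hr v
    rw [(h0 r hr).2.2.1, LinearMap.smul_apply, smul_smul, smul_eq_mul]
    have : σ r * φ0 r v * σ r = φ0 r v := by
      rw [mul_comm, ← mul_assoc, hσ, one_mul]
    rw [this]
  · intro r hr
    have h1 := hv0 ⟨r, hr⟩
    rw [LinearMap.smul_apply, smul_eq_mul]
    simp only [σ]
    split_ifs with h2
    · rw [one_mul]
      exact h2
    · have h3 : φ0 r v0 < 0 := lt_of_le_of_ne (not_lt.1 h2) h1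
      linarith
  · intro r hr
    have hr' : A.IsReflection r := hr
    refine ⟨?_, ?_, ?_⟩
    · show σ r • e0 r ∈ A.lattice
      rcases hσc r with h | h
      · rw [h, one_smul]
        exact (h0 r hr').1
      · rw [h, neg_smul, one_smul]
        exact neg_mem (h0 r hr').1
    · intro v hv
      obtain ⟨n, hn⟩ := (h0 r hr').2.2.2.1 v hv
      obtain ⟨m, hm⟩ := hσ' r
      refine ⟨m * n, ?_⟩
      show σ r • φ0 r v = _
      rw [hn, hm, smul_eq_mul]
      push_cast
      ring
    · intro t ht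
      have ht' : (t * σ r) • e0 r ∈ A.lattice := by
        rw [mul_smul]
        exact ht
      obtain ⟨n, hn⟩ := (h0 r hr').2.2.2.2 _ ht'
      obtain ⟨m, hm⟩ := hσ' r
      refine ⟨n * m, ?_⟩
      have h1 : t = t * σ r * σ r := by rw [mul_assoc, hσ, mul_one]
      rw [h1, hn, hm]
      push_cast
      ring

/-- The linear holonomy. -/
def linHom (A : IntegralAffineAction W X E) : W →* (E ≃ₗ[ℝ] E) := AffineEquiv.linearHom.comp A.hol

theorem linHom_apply (w : W) (v : E) : A.linHom w v = A.lin w v := rfl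

end IntegralAffineAction

namespace RG

variable {W E : Type*} [Group W] [AddCommGroup E] [Module ℝ E] (G : RG W E)

theorem transport_e {r : W} (hr : r ∈ G.R) (w : W) :
    ∃ κ : ℝ, G.L w (G.e r) = κ • G.e (w * r * w⁻¹) := by
  have hr' := G.conj r hr w
  have h1 : G.L (w * r * w⁻¹) (G.L w (G.e r)) = G.L w (G.L r (G.e r)) := by
    rw [← G.L_mul, ← G.L_mul]
    congr 2
    group
  rw [G.refl _ hr', G.refl r hr, map_sub, map_smul, G.two r hr] at h1
  have h2 := sub_right_injective h1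
  refine ⟨G.φ (w * r * w⁻¹) (G.L w (G.e r)) / 2, ?_⟩
  have h3 : (2 : ℝ) • G.L w (G.e r) =
      (2 : ℝ) • ((G.φ (w * r * w⁻¹) (G.L w (G.e r)) / 2) • G.e (w * r * w⁻¹)) := by
    rw [← h2, smul_smul]
    congr 1
    ring
  exact smul_right_injective E (two_ne_zero) h3

/-- The roots are permuted up to sign. -/
theorem e_conj {Λ : Submodule ℤ E} (hΛ : ∀ w, ∀ v ∈ Λ, G.L w v ∈ Λ)
    (he : ∀ r ∈ G.R, G.e r ∈ Λ ∧ ∀ t : ℝ, t • G.e r ∈ Λ → ∃ n : ℤ, t = n)
    {r : W} (hr : r ∈ G.R) (w : W) :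
    G.L w (G.e r) = G.e (w * r * w⁻¹) ∨ G.L w (G.e r) = - G.e (w * r * w⁻¹) := by
  have hr' := G.conj r hr w
  obtain ⟨κ, hκ⟩ := G.transport_e hr w
  obtain ⟨κ', hκ'⟩ := G.transport_e hr' w⁻¹
  have h1 : w⁻¹ * (w * r * w⁻¹) * w⁻¹⁻¹ = r := by group
  rw [h1] at hκ'
  obtain ⟨n, hn⟩ := (he _ hr').2 κ (by rw [← hκ]; exact hΛ w _ (he r hr).1)
  obtain ⟨m, hm⟩ := (he _ hr).2 κ' (by rw [← hκ']; exact hΛ w⁻¹ _ (he _ hr').1)
  have h2 : G.e r = (κ * κ') • G.e r := by
    have h3 : G.L w⁻¹ (G.L w (G.e r)) = G.e r := by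
      rw [← G.L_mul, inv_mul_cancel, G.L_one]
    rw [hκ, map_smul, hκ', smul_smul] at h3
    exact h3.symm
  have h4 : κ * κ' = 1 := by
    have h5 : (1 - κ * κ') • G.e r = 0 := by
      rw [sub_smul, one_smul, ← h2, sub_self]
    rcases smul_eq_zero.1 h5 with h6 | h6
    · linarith
    · exact absurd h6 (G.e_ne hr)
  have h5 : n * m = 1 := by
    rw [hn, hm] at h4
    exact_mod_cast h4
  rcases Int.eq_one_or_neg_one_of_mul_eq_one h5 with h6 | h6
  · left
    rw [hκ, hn, h6]
    simp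
  · right
    rw [hκ, hn, h6]
    simp

theorem refl_formula {r : W} (hr : r ∈ G.R) {x : E} (hx : x = G.e r ∨ x = - G.e r) (v : E) :
    v - (2 * G.B x v / G.B x x) • x = G.L r v := by
  have h1 := G.two_B hr v
  have h2 := (G.inner.pos _ (G.e_ne hr)).ne'
  have h3 : 2 * G.B (G.e r) v / G.B (G.e r) (G.e r) = G.φ r v := by
    rw [← h1]
    field_simp
  rw [G.refl r hr, ← h3]
  rcases hx with rfl | rfl
  · rfl
  · simp only [map_neg, LinearMap.neg_apply, neg_neg, smul_neg, mul_neg, neg_div, neg_smul]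

/-- The root system. -/
def roots (hR : G.R.Finite)
    (hperm : ∀ r ∈ G.R, ∀ w, G.L w (G.e r) = G.e (w * r * w⁻¹) ∨
      G.L w (G.e r) = - G.e (w * r * w⁻¹)) : Roots E where
  S := {x | ∃ r ∈ G.R, x = G.e r ∨ x = - G.e r}
  fin := by
    refine ((hR.image G.e).union (hR.image fun r => - G.e r)).subset ?_
    rintro x ⟨r, hr, rfl | rfl⟩
    · exact Or.inl ⟨r, hr, rfl⟩
    · exact Or.inr ⟨r, hr, rfl⟩
  B := G.B
  inner := G.inner
  ne := by
    rintro x ⟨r, hr, rfl | rfl⟩
    · exact G.e_ne hr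
    · exact neg_ne_zero.2 (G.e_ne hr)
  refl := by
    rintro x ⟨r, hr, hx⟩ y ⟨r', hr', hy⟩
    rw [G.refl_formula hr hx]
    refine ⟨r * r' * r⁻¹, G.conj r' hr' r, ?_⟩
    rcases hy with rfl | rfl
    · exact hperm r' hr' r
    · rw [map_neg]
      rcases hperm r' hr' r with h | h
      · rw [h]; exact Or.inr rfl
      · rw [h, neg_neg]; exact Or.inl rfl

end RG

namespace IntegralAffineAction

variable {W X : Type*} {E : Type*} [Group W] [TopologicalSpace X] [MulAction W X]
  [NormedAddCommGroup E] [NormedSpace ℝ E] (A : IntegralAffineAction W X E)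

/-- **A finite group generated by geometric reflections is a Weyl group.** -/
theorem exists_rootPairing [Finite W] [T2Space X] [SecondCountableTopology X]
    [SimplyConnectedSpace X] [FiniteDimensional ℝ E]
    (hgen : Subgroup.closure {r | A.IsReflection r} = ⊤) :
    ∃ (S : Set E) (P : RootPairing S ℝ E (Dual ℝ E)), S.Finite ∧
      P.toLinearMap = Dual.eval ℝ E ∧ (∀ i, P.root i = i) ∧
      P.IsCrystallographic ∧ P.IsReduced ∧ (∀ i, P.root i ∈ A.lattice) ∧
      (∀ i, ∀ v ∈ A.lattice, ∃ n : ℤ, P.coroot i v = n) ∧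
      ∃ e : W ≃* P.weylGroup, (∀ w v, e w • v = A.lin w v) ∧
        ∀ r, A.IsReflection r ↔ ∃ i, e r = RootPairing.weylGroup.ofIdx P i := by
  obtain ⟨G, hGL, hGR, hGe⟩ := A.exists_RG
  have hRf : G.R.Finite := Set.toFinite _
  have hmem : ∀ r, r ∈ G.R ↔ A.IsReflection r := fun r => by rw [hGR]; rfl
  have hfaith : ∀ w, (∀ v, A.lin w v = v) → w = 1 := fun w hw =>
    G.faithful (by rw [hGR]; exact hgen) fun v => by rw [hGL]; exact hw v
  have hperm : ∀ r ∈ G.R, ∀ w, G.L w (G.e r) = G.e (w * r * w⁻¹) ∨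
      G.L w (G.e r) = - G.e (w * r * w⁻¹) := fun r hr w =>
    G.e_conj (Λ := A.lattice) (fun w v hv => by rw [hGL]; exact A.linear_mem w v hv)
      (fun r hr => ⟨(hGe r hr).1, (hGe r hr).2.2⟩) hr w
  let Q := G.roots hRf hperm
  let P := Q.pairing
  have hroot : ∀ i : Q.S, P.root i = i := fun i => rfl
  have hco : ∀ (i : Q.S) (r : W) (hr : r ∈ G.R) (v : E), (i : E) = G.e r →
      P.coroot i v = G.φ r v := by
    intro i r hr v hi
    show Q.co i v = _
    rw [Q.co_apply, hi]
    have h1 := G.two_B hr v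
    have h2 := (G.inner.pos _ (G.e_ne hr)).ne'
    show 2 * G.B (G.e r) v / G.B (G.e r) (G.e r) = _
    rw [← h1]
    field_simp
  have hco' : ∀ (i : Q.S) (r : W) (hr : r ∈ G.R) (v : E), (i : E) = - G.e r →
      P.coroot i v = - G.φ r v := by
    intro i r hr v hi
    show Q.co i v = _
    rw [Q.co_apply, hi]
    have h1 := G.two_B hr v
    have h2 := (G.inner.pos _ (G.e_ne hr)).ne'
    show 2 * G.B (- G.e r) v / G.B (- G.e r) (- G.e r) = _
    simp only [map_neg, LinearMap.neg_apply, neg_neg, mul_neg]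
    rw [← h1]
    field_simp
  have hlat : ∀ i : Q.S, (i : E) ∈ A.lattice := by
    rintro ⟨x, r, hr, rfl | rfl⟩
    · exact (hGe r hr).1
    · exact neg_mem (hGe r hr).1
  have hint : ∀ i : Q.S, ∀ v ∈ A.lattice, ∃ n : ℤ, P.coroot i v = n := by
    intro i v hv
    obtain ⟨r, hr, hx⟩ := i.2
    obtain ⟨n, hn⟩ := (hGe r hr).2.1 v hv
    rcases hx with hx | hx
    · exact ⟨n, by rw [hco i r hr v hx, hn]⟩
    · exact ⟨-n, by rw [hco' i r hr v hx, hn]; push_cast; ring⟩
  have hrefl : ∀ (i : Q.S) (r : W) (hr : r ∈ G.R), ((i : E) = G.e r ∨ (i : E) = - G.e r) →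
      P.reflection i = A.linHom r := by
    intro i r hr hx
    apply LinearEquiv.ext
    intro v
    rw [A.linHom_apply, ← hGL, ← G.refl_formula hr hx]
    show v - Q.co i v • (i : E) = _
    rw [Q.co_apply]
    rfl
  have hinjL : Function.Injective A.linHom := by
    rw [injective_iff_map_eq_one]
    intro w hw
    refine hfaith w fun v => ?_
    rw [← A.linHom_apply, hw]
    rfl
  let f : P.weylGroup →* (E ≃ₗ[ℝ] E) := (RootPairing.Equiv.weightHom P).domRestrict P.weylGroup
  have hf : Function.Injective f := fun x y hxy =>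
    Subtype.ext (RootPairing.Equiv.weightHom_injective P hxy)
  have hfi : ∀ i, f (RootPairing.weylGroup.ofIdx P i) = P.reflection i := fun i =>
    RootPairing.Equiv.reflection_weightEquiv P i
  have hrange : A.linHom.range = f.range := by
    rw [RootPairing.range_weylGroup_weightHom, MonoidHom.range_eq_map, ← hgen,
      MonoidHom.map_closure]
    congr 1
    ext g
    constructor
    · rintro ⟨r, hr, rfl⟩
      exact ⟨⟨G.e r, r, (hmem r).2 hr, Or.inl rfl⟩, hrefl _ r ((hmem r).2 hr) (Or.inl rfl)⟩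
    · rintro ⟨⟨x, r, hr, hx⟩, rfl⟩
      exact ⟨r, (hmem r).1 hr, (hrefl ⟨x, r, hr, hx⟩ r hr hx).symm⟩
  let e : W ≃* P.weylGroup := (MonoidHom.ofInjective hinjL).trans
    ((MulEquiv.subgroupCongr hrange).trans (MonoidHom.ofInjective hf).symm)
  have he : ∀ w, f (e w) = A.linHom w := by
    intro w
    have h1 : MonoidHom.ofInjective hf (e w) =
        MulEquiv.subgroupCongr hrange (MonoidHom.ofInjective hinjL w) := by
      simp only [e, MulEquiv.trans_apply, MulEquiv.apply_symm_apply]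
    have h2 := congrArg Subtype.val h1
    exact h2
  refine ⟨Q.S, P, Q.fin, rfl, hroot, ⟨?_⟩, ⟨?_⟩, hlat, hint, e, ?_, ?_⟩
  · intro i j
    obtain ⟨n, hn⟩ := hint j _ (hlat i)
    refine ⟨n, ?_⟩
    rw [eq_intCast]
    exact hn.symm
  · intro i j hij
    obtain ⟨r, hr, hx⟩ := i.2
    obtain ⟨r', hr', hy⟩ := j.2
    have hdep : ∃ t : ℝ, G.e r' = t • G.e r := by
      by_contra hcon
      push Not at hcon
      apply hij
      rw [LinearIndependent.pair_iff' (P.ne_zero i)]
      intro t ht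
      rw [hroot, hroot] at ht
      rcases hx with hx | hx <;> rcases hy with hy | hy <;> rw [hx, hy] at ht
      · exact hcon t ht.symm
      · exact hcon (-t) (by rw [neg_smul, ht, neg_neg])
      · exact hcon (-t) (by rw [neg_smul, ← smul_neg, ht])
      · exact hcon t (by rw [smul_neg, neg_inj] at ht; exact ht.symm)
    obtain ⟨t, ht⟩ := hdep
    have ht0 : t ≠ 0 := by
      rintro rfl
      rw [zero_smul] at ht
      exact G.e_ne hr' ht
    have hrr : r = r' := by
      refine G.inj r hr r' hr' fun v => ?_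
      rw [G.refl r hr, G.refl r' hr', eq_of_proportional G.inner (G.two r hr)
        (G.two_B hr) (G.two_B hr') ht ht0 v]
    subst hrr
    rw [hroot, hroot]
    rcases hx with hx | hx <;> rcases hy with hy | hy <;> rw [hx, hy]
    · exact Or.inl rfl
    · exact Or.inr (neg_neg _).symm
    · exact Or.inr rfl
    · exact Or.inl rfl
  · intro w v
    have h1 := he w
    have h2 : f (e w) v = A.linHom w v := by rw [h1]
    exact h2
  · intro r
    constructor
    · intro hr
      have hr' := (hmem r).2 hr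
      refine ⟨⟨G.e r, r, hr', Or.inl rfl⟩, hf ?_⟩
      rw [he, ← hrefl ⟨G.e r, r, hr', Or.inl rfl⟩ r hr' (Or.inl rfl), hfi]
    · rintro ⟨⟨x, r', hr', hx⟩, hi⟩
      have h1 : f (e r) = A.linHom r' := by
        rw [hi, ← hrefl ⟨x, r', hr', hx⟩ r' hr' hx, hfi]
      rw [he] at h1
      rw [hinjL h1]
      exact (hmem r').1 hr'

end IntegralAffineAction

end Pool.Agent.H817.WG
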